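import Mathlib

/-!
# The measure with Laplace transform `exp (g / (1 + x))`
-/

set_option autoImplicit false

open scoped ENNReal

namespace Pool.Agent.Lib_helper59.RCT

open MeasureTheory Set Filter

/-- reference measure on the line: an atom at `0` and Lebesgue measure on `(0, ∞)` -/
noncomputable def nu0 : Measure ℝ := Measure.dirac 0 + volume.restrict (Ioi 0)

instance : SigmaFinite nu0 := by
  unfold nu0
  infer_instance

/-- density: `1` at the atom, `exp(-t) ∑ g^(i+1) t^i / (i! (i+1)!)` on `(0, ∞)` -/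
noncomputable def hden (g t : ℝ) : ℝ≥0∞ :=
  if t ≤ 0 then 1 else ∑' i : ℕ, ENNReal.ofReal
    (g ^ (i + 1) * t ^ i / ((i.factorial : ℝ) * ((i + 1).factorial : ℝ)) * Real.exp (-t))

theorem measurable_hden : Measurable (fun p : ℝ × ℝ => hden p.1 p.2) := by
  unfold hden
  refine Measurable.ite (measurableSet_le measurable_snd measurable_const) measurable_const ?_
  refine Measurable.tsum fun i => ?_
  exact ENNReal.measurable_ofReal.comp (by fun_prop)

theorem lintegral_pow_exp (i : ℕ) {c : ℝ} (hc : 0 < c) :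
    ∫⁻ t in Ioi (0 : ℝ), ENNReal.ofReal (t ^ i * Real.exp (-(c * t))) =
      ENNReal.ofReal ((i.factorial : ℝ) / c ^ (i + 1)) := by
  have h1 := Real.integral_rpow_mul_exp_neg_mul_Ioi (a := (i : ℝ) + 1) (r := c)
    (by positivity) hc
  have h2 : ∀ t ∈ Ioi (0 : ℝ), t ^ ((i : ℝ) + 1 - 1) * Real.exp (-(c * t)) =
      t ^ i * Real.exp (-(c * t)) := by
    intro t _
    rw [add_sub_cancel_right, Real.rpow_natCast]
  rw [setIntegral_congr_fun measurableSet_Ioi h2, Real.Gamma_nat_eq_factorial] at h1
  have h3 : (1 / c) ^ ((i : ℝ) + 1) * (i.factorial : ℝ) = (i.factorial : ℝ) / c ^ (i + 1) := by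
    have : (1 / c) ^ ((i : ℝ) + 1) = (1 / c) ^ (i + 1) := by
      rw [← Real.rpow_natCast]
      push_cast
      rfl
    rw [this, one_div, inv_pow]
    field_simp
  rw [h3] at h1
  have hpos : 0 < (i.factorial : ℝ) / c ^ (i + 1) := by positivity
  have hint : IntegrableOn (fun t : ℝ => t ^ i * Real.exp (-(c * t))) (Ioi 0) := by
    by_contra h
    rw [integral_undef h] at h1
    exact absurd h1 hpos.ne
  rw [← ofReal_integral_eq_lintegral_ofReal hint, h1]
  rw [EventuallyLE, ae_restrict_iff' measurableSet_Ioi]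
  refine Eventually.of_forall fun t ht => ?_
  have : (0 : ℝ) < t := ht
  simp only [Pi.zero_apply]
  positivity

/-- **Laplace transform.** -/
theorem lintegral_hden {g c : ℝ} (hg : 0 ≤ g) (hc : 0 ≤ c) :
    ∫⁻ t, hden g t * ENNReal.ofReal (Real.exp (-(t * c))) ∂nu0 =
      ENNReal.ofReal (Real.exp (g / (1 + c))) := by
  have h1c : 0 < 1 + c := by positivity
  have hm : Measurable fun t : ℝ => hden g t * ENNReal.ofReal (Real.exp (-(t * c))) := by
    refine Measurable.mul ?_ ?_
    · exact measurable_hden.comp (measurable_const.prodMk measurable_id)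
    · exact ENNReal.measurable_ofReal.comp (by fun_prop)
  have e1 : ∫⁻ t in Ioi (0 : ℝ), hden g t * ENNReal.ofReal (Real.exp (-(t * c))) =
      ∫⁻ t in Ioi (0 : ℝ), ∑' i : ℕ, ENNReal.ofReal
        (g ^ (i + 1) / ((i.factorial : ℝ) * ((i + 1).factorial : ℝ))) *
          ENNReal.ofReal (t ^ i * Real.exp (-((1 + c) * t))) := by
    refine setLIntegral_congr_fun measurableSet_Ioi fun t ht => ?_
    have ht0 : (0 : ℝ) < t := ht
    simp only [hden, if_neg (not_le.2 ht0)]
    rw [← ENNReal.tsum_mul_right]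
    refine tsum_congr fun i => ?_
    rw [← ENNReal.ofReal_mul (by positivity), ← ENNReal.ofReal_mul (by positivity)]
    congr 1
    have : Real.exp (-((1 + c) * t)) = Real.exp (-t) * Real.exp (-(t * c)) := by
      rw [← Real.exp_add]; congr 1; ring
    rw [this]
    ring
  have e2 : ∫⁻ t in Ioi (0 : ℝ), hden g t * ENNReal.ofReal (Real.exp (-(t * c))) =
      ∑' i : ℕ, ENNReal.ofReal ((g / (1 + c)) ^ (i + 1) / ((i + 1).factorial : ℝ)) := by
    rw [e1, lintegral_tsum]
    · refine tsum_congr fun i => ?_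
      have hmi : Measurable fun t : ℝ => ENNReal.ofReal (t ^ i * Real.exp (-((1 + c) * t))) :=
        ENNReal.measurable_ofReal.comp (by fun_prop)
      rw [lintegral_const_mul _ hmi,
        lintegral_pow_exp i h1c, ← ENNReal.ofReal_mul (by positivity)]
      congr 1
      rw [div_pow]
      field_simp
    · intro i
      exact (Measurable.const_mul (ENNReal.measurable_ofReal.comp (by fun_prop)) _).aemeasurable
  set x := g / (1 + c) with hx
  have hx0 : 0 ≤ x := by positivity
  have hs := Real.summable_pow_div_factorial x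
  have e3 : Real.exp x = 1 + ∑' i : ℕ, x ^ (i + 1) / ((i + 1).factorial : ℝ) := by
    rw [Real.exp_eq_exp_ℝ, NormedSpace.exp_eq_tsum_div]
    change ∑' i : ℕ, x ^ i / (i.factorial : ℝ) = _
    rw [hs.tsum_eq_zero_add]
    simp
  rw [nu0, lintegral_add_measure, lintegral_dirac' _ hm, e2, e3, ENNReal.ofReal_add zero_le_one
    (tsum_nonneg fun i => by positivity), ENNReal.ofReal_tsum_of_nonneg (fun i => by positivity)
    ((summable_nat_add_iff 1).2 hs)]
  congr 1
  simp [hden]

theorem lintegral_hden_abs {g c : ℝ} (hg : 0 ≤ g) (hc : 0 ≤ c) :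
    ∫⁻ t, hden g t * ENNReal.ofReal (Real.exp (-(|t| * c))) ∂nu0 =
      ENNReal.ofReal (Real.exp (g / (1 + c))) := by
  rw [← lintegral_hden hg hc, nu0, lintegral_add_measure, lintegral_add_measure]
  have hm : Measurable fun t : ℝ => hden g t * ENNReal.ofReal (Real.exp (-(t * c))) := by
    refine Measurable.mul ?_ ?_
    · exact measurable_hden.comp (measurable_const.prodMk measurable_id)
    · exact ENNReal.measurable_ofReal.comp (by fun_prop)
  have hm' : Measurable fun t : ℝ => hden g t * ENNReal.ofReal (Real.exp (-(|t| * c))) := by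
    refine Measurable.mul ?_ ?_
    · exact measurable_hden.comp (measurable_const.prodMk measurable_id)
    · exact ENNReal.measurable_ofReal.comp (by fun_prop)
  congr 1
  · rw [lintegral_dirac' _ hm, lintegral_dirac' _ hm', abs_zero]
  · refine setLIntegral_congr_fun measurableSet_Ioi fun t ht => ?_
    have ht0 : (0 : ℝ) < t := ht
    simp only [abs_of_pos ht0]

/-! ### products -/

theorem lintegral_fin_prod {n : ℕ} {f : Fin n → ℝ → ℝ≥0∞} (hf : ∀ i, Measurable (f i)) :
    ∫⁻ x : Fin n → ℝ, ∏ i, f i (x i) ∂(Measure.pi fun _ => nu0) = ∏ i, ∫⁻ x, f i x ∂nu0 := by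
  induction n with
  | zero => simp
  | succ n ih =>
    rw [← ((measurePreserving_piFinSuccAbove (fun _ : Fin (n + 1) => nu0) 0).symm).lintegral_comp_emb
      (MeasurableEquiv.measurableEmbedding _)]
    simp_rw [MeasurableEquiv.piFinSuccAbove_symm_apply, Fin.insertNthEquiv, Fin.prod_univ_succ,
      Fin.insertNth_zero]
    rw [← ih (fun i => hf _)]
    exact lintegral_prod_mul (hf 0).aemeasurable
      (Finset.measurable_prod _ fun i _ => (hf _).comp (measurable_pi_apply i)).aemeasurable

end Pool.Agent.Lib_helper59.RCT
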