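import Mathlib
import Pool.Agent.Lib_helper59.Lieb.Support
import Pool.Agent.Lib_helper59.RCT.Bessel

/-!
# Lieb's theorem under a Laplace integral; star functions
-/

set_option autoImplicit false
set_option linter.unusedSectionVars false
set_option linter.unusedSimpArgs false

open scoped ENNReal ComplexOrder

namespace Pool.Agent.Lib_helper59.RCT

open Matrix MeasureTheory Set Filter
open Pool.Agent.Lib_helper98.Renyi Pool.Agent.Lib_helper59.Lieb

section

variable {n : Type*} [Fintype n] [DecidableEq n]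

theorem exists_spectral_mem {N : Matrix n n ℂ} (hN : N.IsHermitian) :
    ∃ (V : Matrix n n ℂ) (ν : n → ℝ), Vᴴ * V = 1 ∧ V * Vᴴ = 1 ∧ N = V * dg ν * Vᴴ ∧
      ∀ i, ν i ∈ spectrum ℝ N := by
  refine ⟨hN.eigenvectorUnitary, hN.eigenvalues, ?_, ?_, ?_, fun i =>
    hN.eigenvalues_mem_spectrum_real i⟩
  · have := (Matrix.mem_unitaryGroup_iff' (A := (hN.eigenvectorUnitary : Matrix n n ℂ))).1
      hN.eigenvectorUnitary.2
    simpa [star_eq_conjTranspose] using this
  · have := (Matrix.mem_unitaryGroup_iff (A := (hN.eigenvectorUnitary : Matrix n n ℂ))).1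
      hN.eigenvectorUnitary.2
    simpa [star_eq_conjTranspose] using this
  · have := hN.spectral_theorem
    rw [Unitary.conjStarAlgAut_apply] at this
    exact this

/-- the coefficients of the supporting functional are nonnegative -/
theorem liebD_support' {Q V : Matrix n n ℂ} (hQ : Q.IsHermitian) (hV' : V * Vᴴ = 1)
    {y₀ : n → ℝ} (hy₀ : ∀ i, 0 < y₀ i) :
    ∃ l : n → ℝ, (∀ i, 0 ≤ l i) ∧
      (∀ y : n → ℝ, (∀ i, 0 < y i) → liebD Q V y ≤ ∑ i, l i * y i) ∧
      liebD Q V y₀ = ∑ i, l i * y₀ i := by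
  classical
  obtain ⟨l, h1, h2⟩ := liebD_support hQ hV' hy₀
  refine ⟨l, fun i => ?_, h1, h2⟩
  by_contra hneg
  push Not at hneg
  set S := ∑ j ∈ Finset.univ.erase i, l j with hS
  have hM : 0 < (|S| + 1) / (-(l i)) := div_pos (by positivity) (by linarith)
  have h3 := h1 (Function.update (fun _ => 1) i ((|S| + 1) / (-(l i)))) (fun j => by
    by_cases hj : j = i
    · subst hj; simpa using hM
    · simp [Function.update_of_ne hj])
  have h4 : ∑ j, l j * Function.update (fun _ => (1 : ℝ)) i ((|S| + 1) / (-(l i))) j =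
      l i * ((|S| + 1) / (-(l i))) + S := by
    rw [← Finset.add_sum_erase _ _ (Finset.mem_univ i), Function.update_self, hS]
    congr 1
    refine Finset.sum_congr rfl fun j hj => ?_
    rw [Function.update_of_ne (Finset.ne_of_mem_erase hj), mul_one]
  have h5 : l i * ((|S| + 1) / (-(l i))) = -(|S| + 1) := by
    have hne : l i ≠ 0 := hneg.ne
    rw [div_neg, mul_neg, mul_div_cancel₀ _ hne]
  have h6 : 0 ≤ liebD Q V (Function.update (fun _ => 1) i ((|S| + 1) / (-(l i)))) :=
    lieb_nonneg hQ _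
  rw [h4, h5] at h3
  have := le_abs_self S
  linarith

theorem rtr_exp_nonneg {H : Matrix n n ℂ} (hH : H.IsHermitian) : 0 ≤ rtr (cfc Real.exp H) :=
  rtr_nonneg_of_posDef (exp_posDef hH).1

/-- **Lieb's theorem under a Laplace integral** -/
theorem lieb_lap {R : Type*} [MeasurableSpace R] (m : Measure R) {Q N : Matrix n n ℂ}
    (hQ : Q.IsHermitian) (hN : N.IsHermitian) {w : R → ℝ≥0∞} {q : R → ℝ} (hw : Measurable w)
    (hq : Measurable q) {g : ℝ → ℝ} (hg0 : ∀ x ∈ spectrum ℝ N, 0 < g x)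
    (hg : ∀ x ∈ spectrum ℝ N,
      ∫⁻ r, w r * ENNReal.ofReal (Real.exp (-(q r * x))) ∂m = ENNReal.ofReal (g x)) :
    ∫⁻ r, w r * ENNReal.ofReal (rtr (cfc Real.exp (Q - q r • N))) ∂m ≤
      ENNReal.ofReal (rtr (cfc Real.exp (Q + cfc (fun x => Real.log (g x)) N))) := by
  obtain ⟨V, ν, hV, hV', hNe, hν⟩ := exists_spectral_mem hN
  obtain ⟨l, hl0, hl1, hl2⟩ := liebD_support' hQ hV' (y₀ := fun i => g (ν i))
    (fun i => hg0 _ (hν i))
  have e1 : rtr (cfc Real.exp (Q + cfc (fun x => Real.log (g x)) N)) =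
      liebD Q V (fun i => g (ν i)) := by
    rw [liebD, lieb, dg, cfc_conj_diagonal _ V hV, hNe, cfc_conj_diagonal _ V hV]
  have e2 : ∀ r, rtr (cfc Real.exp (Q - q r • N)) =
      liebD Q V (fun i => Real.exp (-(q r * ν i))) := by
    intro r
    rw [liebD, lieb, dg, cfc_conj_diagonal _ V hV (fun i => Real.exp (-(q r * ν i)))]
    congr 2
    rw [sub_eq_add_neg]
    congr 1
    rw [hNe, ← neg_smul, ← Matrix.smul_mul, ← Matrix.mul_smul, dg, ← diagonal_smul]
    congr 3
    funext i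
    simp
  have hm : ∀ i, Measurable fun r => w r * ENNReal.ofReal (Real.exp (-(q r * ν i))) := fun i =>
    hw.mul (ENNReal.measurable_ofReal.comp (by fun_prop))
  calc ∫⁻ r, w r * ENNReal.ofReal (rtr (cfc Real.exp (Q - q r • N))) ∂m
      ≤ ∫⁻ r, ∑ i, ENNReal.ofReal (l i) *
          (w r * ENNReal.ofReal (Real.exp (-(q r * ν i)))) ∂m := by
        refine lintegral_mono fun r => ?_
        have h1 := hl1 (fun i => Real.exp (-(q r * ν i))) (fun i => Real.exp_pos _)
        rw [← e2 r] at h1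
        calc w r * ENNReal.ofReal (rtr (cfc Real.exp (Q - q r • N)))
            ≤ w r * ENNReal.ofReal (∑ i, l i * Real.exp (-(q r * ν i))) := by
              gcongr
          _ = _ := by
              rw [ENNReal.ofReal_sum_of_nonneg fun i _ => mul_nonneg (hl0 i) (Real.exp_pos _).le,
                Finset.mul_sum]
              refine Finset.sum_congr rfl fun i _ => ?_
              rw [ENNReal.ofReal_mul (hl0 i)]
              ring
    _ = ∑ i, ENNReal.ofReal (l i) * ENNReal.ofReal (g (ν i)) := by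
        rw [lintegral_finsetSum _ fun i _ => (hm i).const_mul _]
        refine Finset.sum_congr rfl fun i _ => ?_
        rw [lintegral_const_mul _ (hm i), hg _ (hν i)]
    _ = ENNReal.ofReal (rtr (cfc Real.exp (Q + cfc (fun x => Real.log (g x)) N))) := by
        rw [e1, hl2, ENNReal.ofReal_sum_of_nonneg fun i _ =>
          mul_nonneg (hl0 i) (hg0 _ (hν i)).le]
        refine Finset.sum_congr rfl fun i _ => ?_
        rw [ENNReal.ofReal_mul (hl0 i)]

end

/-! ### star functions -/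

/-- Data of a sheet: the function `psi x = β + α₀ x - ∑ γ j / (1 + a j x)` and the letters
`B = P + lam K`, `N = e K`. -/
structure Sheet where
  J : ℕ
  β : ℝ
  α₀ : ℝ
  lam : ℝ
  e : ℝ
  γ : Fin J → ℝ
  a : Fin J → ℝ
  α₀_nonneg : 0 ≤ α₀
  lam_nonneg : 0 ≤ lam
  cone : 0 ≤ e + lam * α₀
  γ_nonneg : ∀ j, 0 ≤ γ j
  a_nonneg : ∀ j, 0 ≤ a j
  pos : ∑ j, γ j < β

namespace Sheet

variable (s : Sheet)

/-- the star function -/
noncomputable def psi (x : ℝ) : ℝ := s.β + s.α₀ * x - ∑ j, s.γ j / (1 + s.a j * x)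

/-- the weight -/
noncomputable def om (τ : ℝ) (t : Fin s.J → ℝ) : ℝ≥0∞ :=
  ENNReal.ofReal (Real.exp (-(τ * s.β))) * ∏ j, hden (τ * s.γ j) (t j)

/-- the coefficient of `B` -/
noncomputable def q (τ : ℝ) (t : Fin s.J → ℝ) : ℝ := τ * s.α₀ + ∑ j, |t j| * s.a j

theorem q_nonneg {τ : ℝ} (hτ : 0 ≤ τ) (t : Fin s.J → ℝ) : 0 ≤ s.q τ t :=
  add_nonneg (mul_nonneg hτ s.α₀_nonneg)
    (Finset.sum_nonneg fun j _ => mul_nonneg (abs_nonneg _) (s.a_nonneg j))

theorem measurable_om : Measurable fun p : ℝ × (Fin s.J → ℝ) => s.om p.1 p.2 := by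
  unfold om
  refine Measurable.mul (ENNReal.measurable_ofReal.comp (by fun_prop)) ?_
  refine Finset.measurable_prod _ fun j _ => ?_
  exact measurable_hden.comp ((measurable_fst.mul_const _).prodMk
    ((measurable_pi_apply j).comp measurable_snd))

theorem measurable_q : Measurable fun p : ℝ × (Fin s.J → ℝ) => s.q p.1 p.2 := by
  unfold q
  refine Measurable.add (measurable_fst.mul_const _) ?_
  refine Finset.measurable_sum _ fun j _ => ?_
  exact (((measurable_pi_apply j).comp measurable_snd).abs).mul_const _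

/-- the reference measure -/
noncomputable def mu : Measure (Fin s.J → ℝ) := Measure.pi fun _ => nu0

instance : SigmaFinite s.mu := by
  unfold mu
  infer_instance

/-- **Laplace transform of the weight** -/
theorem lintegral_om {τ x : ℝ} (hτ : 0 ≤ τ) (hx : 0 ≤ x) :
    ∫⁻ t, s.om τ t * ENNReal.ofReal (Real.exp (-(s.q τ t * x))) ∂s.mu =
      ENNReal.ofReal (Real.exp (-(τ * s.psi x))) := by
  have h1 : ∀ t : Fin s.J → ℝ, s.om τ t * ENNReal.ofReal (Real.exp (-(s.q τ t * x))) =
      ENNReal.ofReal (Real.exp (-(τ * s.β) - τ * s.α₀ * x)) *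
        ∏ j, (hden (τ * s.γ j) (t j) *
          ENNReal.ofReal (Real.exp (-(|t j| * (s.a j * x))))) := by
    intro t
    rw [Finset.prod_mul_distrib, om]
    have h2 : Real.exp (-(s.q τ t * x)) = Real.exp (-(τ * s.α₀ * x)) *
        ∏ j, Real.exp (-(|t j| * (s.a j * x))) := by
      rw [← Real.exp_sum, ← Real.exp_add]
      congr 1
      unfold q
      rw [Finset.sum_neg_distrib, add_mul, Finset.sum_mul, neg_add]
      congr 2
      refine Finset.sum_congr rfl fun j _ => ?_
      ring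
    have h3 : Real.exp (-(τ * s.β) - τ * s.α₀ * x) =
        Real.exp (-(τ * s.β)) * Real.exp (-(τ * s.α₀ * x)) := by
      rw [← Real.exp_add]; congr 1
    rw [h2, h3, ENNReal.ofReal_mul (Real.exp_pos _).le, ENNReal.ofReal_mul (Real.exp_pos _).le,
      ENNReal.ofReal_prod_of_nonneg fun j _ => (Real.exp_pos _).le]
    ring
  have hm : ∀ j, Measurable fun u : ℝ => hden (τ * s.γ j) u *
      ENNReal.ofReal (Real.exp (-(|u| * (s.a j * x)))) := by
    intro j
    refine Measurable.mul ?_ (ENNReal.measurable_ofReal.comp (by fun_prop))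
    exact measurable_hden.comp (measurable_const.prodMk measurable_id)
  have hmp : Measurable fun t : Fin s.J → ℝ => ∏ j, (hden (τ * s.γ j) (t j) *
      ENNReal.ofReal (Real.exp (-(|t j| * (s.a j * x))))) :=
    Finset.measurable_prod _ fun j _ => (hm j).comp (measurable_pi_apply j)
  simp_rw [h1]
  rw [lintegral_const_mul _ hmp, mu, lintegral_fin_prod hm]
  have h4 : ∀ j, ∫⁻ u, hden (τ * s.γ j) u *
      ENNReal.ofReal (Real.exp (-(|u| * (s.a j * x)))) ∂nu0 =
      ENNReal.ofReal (Real.exp (τ * s.γ j / (1 + s.a j * x))) := fun j =>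
    lintegral_hden_abs (mul_nonneg hτ (s.γ_nonneg j)) (mul_nonneg (s.a_nonneg j) hx)
  rw [Finset.prod_congr rfl fun j _ => h4 j, ← ENNReal.ofReal_prod_of_nonneg fun j _ =>
    (Real.exp_pos _).le, ← ENNReal.ofReal_mul (Real.exp_pos _).le, ← Real.exp_sum,
    ← Real.exp_add]
  congr 2
  unfold psi
  rw [mul_sub, mul_add, Finset.mul_sum]
  have : ∑ j, τ * s.γ j / (1 + s.a j * x) = ∑ j, τ * (s.γ j / (1 + s.a j * x)) :=
    Finset.sum_congr rfl fun j _ => by rw [mul_div_assoc]
  rw [this]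
  ring

end Sheet

section

variable {n : Type*} [Fintype n] [DecidableEq n]

theorem spectrum_nonneg_of_psd {B : Matrix n n ℂ} (hB : B.PosSemidef) {x : ℝ}
    (hx : x ∈ spectrum ℝ B) : 0 ≤ x := by
  obtain ⟨i, rfl⟩ := hB.1.spectrum_real_eq_range_eigenvalues ▸ hx
  exact hB.eigenvalues_nonneg i

/-- **KEY.** `∫ ω Tr exp(Q - q B) ≤ Tr exp(Q - τ psi(B))`. -/
theorem Sheet.key (s : Sheet) {τ : ℝ} (hτ : 0 ≤ τ) {Q B : Matrix n n ℂ} (hQ : Q.IsHermitian)
    (hB : B.PosSemidef) :
    ∫⁻ t, s.om τ t * ENNReal.ofReal (rtr (cfc Real.exp (Q - s.q τ t • B))) ∂s.mu ≤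
      ENNReal.ofReal (rtr (cfc Real.exp (Q - τ • cfc s.psi B))) := by
  have hm1 : Measurable fun t : Fin s.J → ℝ => s.om τ t :=
    s.measurable_om.comp (measurable_const.prodMk measurable_id)
  have hm2 : Measurable fun t : Fin s.J → ℝ => s.q τ t :=
    s.measurable_q.comp (measurable_const.prodMk measurable_id)
  have h := lieb_lap s.mu hQ hB.1 hm1 hm2 (g := fun x => Real.exp (-(τ * s.psi x)))
    (fun x _ => Real.exp_pos _)
    (fun x hx => s.lintegral_om hτ (spectrum_nonneg_of_psd hB hx))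
  refine h.trans (le_of_eq ?_)
  congr 3
  rw [sub_eq_add_neg]
  congr 1
  obtain ⟨V, ν, hV, hV', hNe, hν⟩ := exists_spectral_mem hB.1
  rw [hNe, dg, cfc_conj_diagonal _ V hV, cfc_conj_diagonal _ V hV, ← neg_smul,
    ← Matrix.smul_mul, ← Matrix.mul_smul, ← diagonal_smul]
  congr 3
  funext i
  simp

end

end Pool.Agent.Lib_helper59.RCT
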