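import Mathlib
import Pool.Agent.Lib_helper59.RCT.Key

/-!
# Frullani: `log det` as an integral of `Tr exp`
-/

set_option autoImplicit false
set_option linter.unusedSectionVars false
set_option linter.unusedSimpArgs false

open scoped ENNReal ComplexOrder

namespace Pool.Agent.Lib_helper59.RCT

open Matrix MeasureTheory Set Filter
open Pool.Agent.Lib_helper98.Renyi Pool.Agent.Lib_helper59.Lieb

theorem fru_bound {h τ : ℝ} (hτ : 0 < τ) :
    ‖τ⁻¹ * (Real.exp (-τ) - Real.exp (-(τ * h)))‖ ≤ |1 - h| * Real.exp (-(τ * min 1 h)) := by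
  rw [norm_mul, norm_inv, Real.norm_eq_abs, Real.norm_eq_abs, abs_of_pos hτ]
  have key : ∀ a b : ℝ, a ≤ b → |Real.exp (-(τ * a)) - Real.exp (-(τ * b))| ≤
      τ * (b - a) * Real.exp (-(τ * a)) := by
    intro a b hab
    have h1 : Real.exp (-(τ * b)) ≤ Real.exp (-(τ * a)) := by
      apply Real.exp_le_exp.2
      nlinarith
    rw [abs_of_nonneg (by linarith)]
    have h2 : Real.exp (-(τ * b)) = Real.exp (-(τ * a)) * Real.exp (-(τ * (b - a))) := by
      rw [← Real.exp_add]; congr 1; ring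
    have h3 := Real.add_one_le_exp (-(τ * (b - a)))
    rw [h2]
    have h4 := Real.exp_pos (-(τ * a))
    nlinarith
  have h1 : |Real.exp (-τ) - Real.exp (-(τ * h))| ≤
      τ * |1 - h| * Real.exp (-(τ * min 1 h)) := by
    rcases le_total 1 h with h1 | h1
    · have := key 1 h h1
      rw [mul_one] at this
      rw [min_eq_left h1, mul_one, abs_of_nonpos (by linarith : 1 - h ≤ 0)]
      refine this.trans (le_of_eq ?_)
      ring
    · have := key h 1 h1
      rw [mul_one] at this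
      rw [min_eq_right h1, abs_of_nonneg (by linarith : 0 ≤ 1 - h), abs_sub_comm]
      exact this
  calc τ⁻¹ * |Real.exp (-τ) - Real.exp (-(τ * h))|
      ≤ τ⁻¹ * (τ * |1 - h| * Real.exp (-(τ * min 1 h))) :=
        mul_le_mul_of_nonneg_left h1 (inv_nonneg.2 hτ.le)
    _ = |1 - h| * Real.exp (-(τ * min 1 h)) := by
        field_simp

theorem fru_integrable {h : ℝ} (hh : 0 < h) :
    IntegrableOn (fun τ : ℝ => τ⁻¹ * (Real.exp (-τ) - Real.exp (-(τ * h)))) (Ioi 0) := by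
  have hm : 0 < min 1 h := lt_min one_pos hh
  have h1 : IntegrableOn (fun τ : ℝ => |1 - h| * Real.exp (-(τ * min 1 h))) (Ioi 0) := by
    have h2 : IntegrableOn (fun τ : ℝ => |1 - h| * Real.exp (-(min 1 h) * τ)) (Ioi 0) :=
      (integrableOn_exp_mul_Ioi (a := -(min 1 h)) (by linarith) 0).const_mul |1 - h|
    refine h2.congr_fun (fun τ _ => ?_) measurableSet_Ioi
    simp only
    congr 2
    ring
  refine Integrable.mono' h1 ?_ ?_
  · refine ContinuousOn.aestronglyMeasurable ?_ measurableSet_Ioi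
    refine ContinuousOn.mul ?_ (by fun_prop)
    exact continuousOn_inv₀.mono fun x hx => ne_of_gt hx
  · rw [ae_restrict_iff' measurableSet_Ioi]
    exact Eventually.of_forall fun τ hτ => fru_bound hτ

theorem fru_integral {h : ℝ} (hh : 0 < h) :
    ∫ τ in Ioi (0 : ℝ), τ⁻¹ * (Real.exp (-τ) - Real.exp (-(τ * h))) = Real.log h := by
  have h1 := Frullani.integral_Ioi_eq (f := fun x : ℝ => Real.exp (-x)) (a := 1) (b := h)
    (L := (1 : ℝ)) (R := 0)
    ((by fun_prop : Continuous fun x : ℝ => Real.exp (-x)).continuousOn.locallyIntegrableOn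
      measurableSet_Ioi) one_pos hh
    (by
      have : Continuous fun x : ℝ => Real.exp (-x) := by fun_prop
      have h2 := this.tendsto 0
      simp only [neg_zero, Real.exp_zero] at h2
      exact h2.mono_left nhdsWithin_le_nhds)
    (Real.tendsto_exp_neg_atTop_nhds_zero)
    (by
      refine (fru_integrable hh).congr_fun (fun τ _ => ?_) measurableSet_Ioi
      simp only [smul_eq_mul, one_mul]
      rw [mul_comm h τ])
  simp only [smul_eq_mul, one_mul, div_one, sub_zero, mul_one] at h1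
  rw [← h1]
  refine setIntegral_congr_fun measurableSet_Ioi fun τ _ => ?_
  rw [mul_comm h τ]

section

variable {n : Type*} [Fintype n] [DecidableEq n]

/-- `log det` of a positive definite matrix. -/
noncomputable def Ld (H : Matrix n n ℂ) : ℝ := rtr (cfc Real.log H)

theorem rtr_conj_dg {U : Matrix n n ℂ} (hU : Uᴴ * U = 1) (c : n → ℝ) :
    rtr (U * dg c * Uᴴ) = ∑ i, c i := by
  rw [rtr, trace_mul_comm, ← Matrix.mul_assoc, hU, Matrix.one_mul, dg, trace_diagonal]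
  simp

theorem rtr_cfc_dg {U : Matrix n n ℂ} (hU : Uᴴ * U = 1) (f : ℝ → ℝ) (c : n → ℝ) :
    rtr (cfc f (U * dg c * Uᴴ)) = ∑ i, f (c i) := by
  rw [dg, cfc_conj_diagonal _ U hU]
  exact rtr_conj_dg hU fun i => f (c i)

theorem smul_conj_dg (U : Matrix n n ℂ) (r : ℝ) (c : n → ℝ) :
    r • (U * dg c * Uᴴ) = U * dg (fun i => r * c i) * Uᴴ := by
  rw [← Matrix.smul_mul, ← Matrix.mul_smul, dg, ← diagonal_smul]
  congr 3
  funext i
  simp

theorem neg_smul_conj_dg (U : Matrix n n ℂ) (r : ℝ) (c : n → ℝ) :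
    -(r • (U * dg c * Uᴴ)) = U * dg (fun i => -(r * c i)) * Uᴴ := by
  rw [← neg_smul, smul_conj_dg]
  congr 3
  funext i
  ring

theorem fru_Ld {H : Matrix n n ℂ} (hH : H.PosDef) :
    IntegrableOn (fun τ : ℝ => τ⁻¹ * (Fintype.card n * Real.exp (-τ) -
      rtr (cfc Real.exp (-(τ • H))))) (Ioi 0) ∧
    ∫ τ in Ioi (0 : ℝ), τ⁻¹ * (Fintype.card n * Real.exp (-τ) -
      rtr (cfc Real.exp (-(τ • H)))) = Ld H := by
  obtain ⟨U, h, hU, hU', hh, rfl⟩ := exists_spectral_pos hH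
  have e1 : ∀ τ : ℝ, τ⁻¹ * (Fintype.card n * Real.exp (-τ) -
      rtr (cfc Real.exp (-(τ • (U * dg h * Uᴴ))))) =
      ∑ i, τ⁻¹ * (Real.exp (-τ) - Real.exp (-(τ * h i))) := by
    intro τ
    rw [neg_smul_conj_dg, rtr_cfc_dg hU, ← Finset.mul_sum, Finset.sum_sub_distrib,
      Finset.sum_const, Finset.card_univ, nsmul_eq_mul]
  simp_rw [e1]
  refine ⟨integrable_finsetSum _ fun i _ => fru_integrable (hh i), ?_⟩
  rw [integral_finsetSum _ fun i _ => fru_integrable (hh i), Ld, rtr_cfc_dg hU]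
  exact Finset.sum_congr rfl fun i _ => fru_integral (hh i)

/-- The combination which occurs. -/
theorem fru_comb {H₁ H₂ H₀ : Matrix n n ℂ} (h₁ : H₁.PosDef) (h₂ : H₂.PosDef) (h₀ : H₀.PosDef) :
    IntegrableOn (fun τ : ℝ => τ⁻¹ * (rtr (cfc Real.exp (-(τ • H₁))) / 2 +
      rtr (cfc Real.exp (-(τ • H₂))) / 2 - rtr (cfc Real.exp (-(τ • H₀))))) (Ioi 0) ∧
    ∫ τ in Ioi (0 : ℝ), τ⁻¹ * (rtr (cfc Real.exp (-(τ • H₁))) / 2 +
      rtr (cfc Real.exp (-(τ • H₂))) / 2 - rtr (cfc Real.exp (-(τ • H₀)))) =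
      Ld H₀ - Ld H₁ / 2 - Ld H₂ / 2 := by
  obtain ⟨i1, e1⟩ := fru_Ld h₁
  obtain ⟨i2, e2⟩ := fru_Ld h₂
  obtain ⟨i0, e0⟩ := fru_Ld h₀
  have e : (fun τ : ℝ => τ⁻¹ * (rtr (cfc Real.exp (-(τ • H₁))) / 2 +
      rtr (cfc Real.exp (-(τ • H₂))) / 2 - rtr (cfc Real.exp (-(τ • H₀))))) = fun τ : ℝ =>
      (τ⁻¹ * (Fintype.card n * Real.exp (-τ) - rtr (cfc Real.exp (-(τ • H₀)))) -
        (τ⁻¹ * (Fintype.card n * Real.exp (-τ) - rtr (cfc Real.exp (-(τ • H₁))))) / 2) -
        (τ⁻¹ * (Fintype.card n * Real.exp (-τ) - rtr (cfc Real.exp (-(τ • H₂))))) / 2 := by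
    funext τ
    ring
  have hA : IntegrableOn (fun τ : ℝ =>
      τ⁻¹ * (Fintype.card n * Real.exp (-τ) - rtr (cfc Real.exp (-(τ • H₀)))) -
        (τ⁻¹ * (Fintype.card n * Real.exp (-τ) - rtr (cfc Real.exp (-(τ • H₁))))) / 2) (Ioi 0) :=
    i0.sub (i1.div_const 2)
  have hB : IntegrableOn (fun τ : ℝ =>
      (τ⁻¹ * (Fintype.card n * Real.exp (-τ) - rtr (cfc Real.exp (-(τ • H₂))))) / 2) (Ioi 0) :=
    i2.div_const 2
  rw [e]
  refine ⟨hA.sub hB, ?_⟩
  rw [integral_sub hA hB, integral_sub i0 (i1.div_const 2),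
    integral_div, integral_div, e0, e1, e2]

end

end Pool.Agent.Lib_helper59.RCT
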