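import Mathlib
import Pool.Agent.Lib_helper59.RCT.Fru

/-!
# Continuity of `Tr exp`, second differences
-/

set_option autoImplicit false
set_option linter.unusedSectionVars false
set_option linter.unusedSimpArgs false

open scoped ENNReal ComplexOrder

namespace Pool.Agent.Lib_helper59.RCT

open Matrix MeasureTheory Set Filter
open Pool.Agent.Lib_helper98.Renyi Pool.Agent.Lib_helper59.Lieb

section

variable {n : Type*} [Fintype n] [DecidableEq n]

theorem cfc_exp_eq {H : Matrix n n ℂ} (hH : H.IsHermitian) :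
    cfc Real.exp H = NormedSpace.exp H := by
  obtain ⟨U, h, hU, hU', rfl⟩ := exists_spectral hH
  have hinv : U⁻¹ = Uᴴ := Matrix.inv_eq_left_inv hU
  have hu : IsUnit U := ⟨⟨U, Uᴴ, hU', hU⟩, rfl⟩
  rw [cfc_conj_diagonal _ U hU, ← hinv, Matrix.exp_conj U _ hu, Matrix.exp_diagonal]
  congr 3
  funext i
  rw [Pi.coe_exp]
  rw [← Complex.exp_eq_exp_ℂ]
  push_cast
  rfl

section

attribute [local instance] Matrix.linftyOpNormedRing Matrix.linftyOpNormedAlgebra

theorem continuous_rtr_exp : Continuous fun M : Matrix n n ℂ => rtr (NormedSpace.exp M) := by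
  have h1 : Continuous fun M : Matrix n n ℂ => NormedSpace.exp M :=
    NormedSpace.exp_continuous
  have h2 : Continuous fun M : Matrix n n ℂ => rtr M := by
    unfold rtr
    exact Complex.continuous_re.comp (Continuous.matrix_trace continuous_id)
  exact h2.comp h1

end

/-- `E P K (a, b) = Tr exp (-(a P + b K))` -/
noncomputable def E (P K : Matrix n n ℂ) (c : ℝ × ℝ) : ℝ :=
  rtr (cfc Real.exp (-(c.1 • P + c.2 • K)))

theorem isHermitian_comb {P K : Matrix n n ℂ} (hP : P.IsHermitian) (hK : K.IsHermitian)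
    (a b : ℝ) : (-(a • P + b • K)).IsHermitian := by
  refine IsHermitian.neg (IsHermitian.add ?_ ?_)
  · rw [Matrix.IsHermitian, conjTranspose_smul, hP.eq]; simp
  · rw [Matrix.IsHermitian, conjTranspose_smul, hK.eq]; simp

theorem continuous_E {P K : Matrix n n ℂ} (hP : P.IsHermitian) (hK : K.IsHermitian) :
    Continuous (E P K) := by
  have h1 : E P K = fun c => rtr (NormedSpace.exp (-(c.1 • P + c.2 • K))) := by
    funext c
    rw [E, cfc_exp_eq (isHermitian_comb hP hK _ _)]
  rw [h1]
  refine continuous_rtr_exp.comp ?_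
  fun_prop

theorem E_nonneg {P K : Matrix n n ℂ} (hP : P.IsHermitian) (hK : K.IsHermitian) (c : ℝ × ℝ) :
    0 ≤ E P K c := rtr_exp_nonneg (isHermitian_comb hP hK _ _)

/-- second difference of `Tr f` -/
noncomputable def sd (f : ℝ → ℝ) (A D : Matrix n n ℂ) : ℝ :=
  (trF f (A + D) + trF f (A - D)) / 2 - trF f A

/-- PSD pair -/
structure PP (A D : Matrix n n ℂ) : Prop where
  add : (A + D).PosSemidef
  sub : (A - D).PosSemidef

theorem PP.psd {A D : Matrix n n ℂ} (h : PP A D) : A.PosSemidef := by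
  have h1 : A = (1 / 2 : ℝ) • ((A + D) + (A - D)) := by
    rw [add_add_sub_cancel, ← two_smul ℝ A, smul_smul]
    norm_num
  rw [h1]
  exact (h.add.add h.sub).smul (by norm_num)

theorem PP.herm {A D : Matrix n n ℂ} (h : PP A D) : D.IsHermitian := by
  have h1 : D = (A + D) - A := by abel
  rw [h1]
  exact h.add.1.sub h.psd.1

theorem sd_nonneg {f : ℝ → ℝ} (hf : ConvexOn ℝ (Set.Ici 0) f) {A D : Matrix n n ℂ}
    (h : PP A D) : 0 ≤ sd f A D := by
  have := trF_midpoint hf h.psd h.add h.sub
  unfold sd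
  linarith

theorem trF_exp_neg {H : Matrix n n ℂ} (hH : H.IsHermitian) :
    trF (fun x => Real.exp (-x)) H = rtr (cfc Real.exp (-H)) := by
  obtain ⟨U, h, hU, hU', rfl⟩ := exists_spectral hH
  rw [trF_conj_diagonal _ U hU]
  have h1 : -(U * diagonal (fun i => (h i : ℂ)) * Uᴴ) = U * dg (fun i => -(h i)) * Uᴴ := by
    have := neg_smul_conj_dg U 1 h
    rw [one_smul] at this
    simp only [one_mul] at this
    exact this
  rw [h1, rtr_cfc_dg hU]

theorem convexOn_exp_neg : ConvexOn ℝ (Set.Ici 0) fun x : ℝ => Real.exp (-x) := by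
  have h := (convexOn_exp.comp_linearMap (-LinearMap.id : ℝ →ₗ[ℝ] ℝ)).subset
    (Set.subset_univ (Set.Ici (0 : ℝ))) (convex_Ici 0)
  exact h

end

end Pool.Agent.Lib_helper59.RCT
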