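import Mathlib
import Pool.Agent.Lib_helper59.RCT.Exp

/-!
# The inequality for one sheet
-/

set_option autoImplicit false
set_option linter.unusedSectionVars false
set_option linter.unusedSimpArgs false

open scoped ENNReal ComplexOrder

namespace Pool.Agent.Lib_helper59.RCT

open Matrix MeasureTheory Set Filter
open Pool.Agent.Lib_helper98.Renyi Pool.Agent.Lib_helper59.Lieb

theorem ennr_aux (w : ℝ≥0∞) {a b c d : ℝ} (ha : 0 ≤ a) (hb : 0 ≤ b) (hc : 0 ≤ c) (hd : 0 ≤ d)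
    (h : d = (a + b) / 2 - c) :
    w * ENNReal.ofReal (2 * d) + 2 * (w * ENNReal.ofReal c) =
      w * ENNReal.ofReal a + w * ENNReal.ofReal b := by
  have e : 2 * (w * ENNReal.ofReal c) = w * ENNReal.ofReal (2 * c) := by
    rw [ENNReal.ofReal_mul two_pos.le, ENNReal.ofReal_ofNat]
    ring
  rw [e, ← mul_add, ← mul_add, ← ENNReal.ofReal_add (by positivity) (by positivity),
    ← ENNReal.ofReal_add ha hb]
  congr 2
  rw [h]
  ring

theorem comb_aux {Ω : Type*} [MeasurableSpace Ω] (μ : Measure Ω) {w : Ω → ℝ≥0∞}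
    {a b c d : Ω → ℝ} (hw : Measurable w) (ha : Measurable a) (hc : Measurable c)
    (ha0 : ∀ t, 0 ≤ a t) (hb0 : ∀ t, 0 ≤ b t) (hc0 : ∀ t, 0 ≤ c t) (hd0 : ∀ t, 0 ≤ d t)
    (h : ∀ t, d t = (a t + b t) / 2 - c t) :
    ∫⁻ t, w t * ENNReal.ofReal (2 * d t) ∂μ + 2 * ∫⁻ t, w t * ENNReal.ofReal (c t) ∂μ =
      ∫⁻ t, w t * ENNReal.ofReal (a t) ∂μ + ∫⁻ t, w t * ENNReal.ofReal (b t) ∂μ := by
  have hm0 : Measurable fun t => w t * ENNReal.ofReal (c t) :=
    hw.mul (ENNReal.measurable_ofReal.comp hc)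
  have hm2 : Measurable fun t => w t * ENNReal.ofReal (a t) :=
    hw.mul (ENNReal.measurable_ofReal.comp ha)
  rw [← lintegral_const_mul _ hm0, ← lintegral_add_right _ (hm0.const_mul _),
    ← lintegral_add_left hm2]
  exact lintegral_congr fun t => ennr_aux _ (ha0 t) (hb0 t) (hc0 t) (hd0 t) (h t)

/-- `exp(-x)` -/
noncomputable abbrev en : ℝ → ℝ := fun x => Real.exp (-x)

namespace Sheet

variable (s : Sheet)

/-- coefficient of `K` -/
noncomputable def v (τ : ℝ) (t : Fin s.J → ℝ) : ℝ := τ * s.e + s.q τ t * s.lam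

theorem v_nonneg {τ : ℝ} (hτ : 0 ≤ τ) (t : Fin s.J → ℝ) : 0 ≤ s.v τ t := by
  unfold v q
  have h1 : 0 ≤ ∑ j, |t j| * s.a j :=
    Finset.sum_nonneg fun j _ => mul_nonneg (abs_nonneg _) (s.a_nonneg j)
  have h2 := mul_nonneg hτ s.cone
  have h3 := mul_nonneg h1 s.lam_nonneg
  have e : τ * s.e + (τ * s.α₀ + ∑ j, |t j| * s.a j) * s.lam =
      τ * (s.e + s.lam * s.α₀) + (∑ j, |t j| * s.a j) * s.lam := by ring
  rw [e]
  positivity

/-- the direction: coefficient of `A` -/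
noncomputable def x (τ : ℝ) (t : Fin s.J → ℝ) : ℝ := s.q τ t + s.v τ t

/-- the direction: coefficient of `D` -/
noncomputable def y (τ : ℝ) (t : Fin s.J → ℝ) : ℝ := s.v τ t - s.q τ t

theorem abs_y_le {τ : ℝ} (hτ : 0 ≤ τ) (t : Fin s.J → ℝ) : |s.y τ t| ≤ s.x τ t := by
  have h1 := s.q_nonneg hτ t
  have h2 := s.v_nonneg hτ t
  unfold x y
  rw [abs_le]
  constructor <;> linarith

theorem measurable_v : Measurable fun p : ℝ × (Fin s.J → ℝ) => s.v p.1 p.2 := by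
  unfold v
  exact (measurable_fst.mul_const _).add (s.measurable_q.mul_const _)

theorem measurable_x : Measurable fun p : ℝ × (Fin s.J → ℝ) => s.x p.1 p.2 :=
  s.measurable_q.add s.measurable_v

theorem measurable_y : Measurable fun p : ℝ × (Fin s.J → ℝ) => s.y p.1 p.2 :=
  s.measurable_v.sub s.measurable_q

section

variable {n : Type*} [Fintype n] [DecidableEq n]

/-- the operator `psi (P + lam K) + e K` -/
noncomputable def H (P K : Matrix n n ℂ) : Matrix n n ℂ :=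
  cfc s.psi (P + s.lam • K) + s.e • K

theorem psi_ge {x : ℝ} (hx : 0 ≤ x) : (s.β - ∑ j, s.γ j) + s.α₀ * x ≤ s.psi x := by
  unfold psi
  have h : ∑ j, s.γ j / (1 + s.a j * x) ≤ ∑ j, s.γ j := by
    refine Finset.sum_le_sum fun j _ => div_le_self (s.γ_nonneg j) ?_
    have := mul_nonneg (s.a_nonneg j) hx
    linarith
  linarith

theorem psd_comb {P K : Matrix n n ℂ} (hP : P.PosSemidef) (hK : K.PosSemidef) :
    (P + s.lam • K).PosSemidef := hP.add (hK.smul s.lam_nonneg)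

theorem H_posDef {P K : Matrix n n ℂ} (hP : P.PosSemidef) (hK : K.PosSemidef) :
    (s.H P K).PosDef := by
  have hB := s.psd_comb hP hK
  obtain ⟨V, ν, hV, hV', hν, hBe⟩ := exists_spectral_nonneg hB
  have h1 : (cfc s.psi (P + s.lam • K) - ((s.β - ∑ j, s.γ j) • (1 : Matrix n n ℂ) +
      s.α₀ • (P + s.lam • K))).PosSemidef := by
    have e1 : (s.β - ∑ j, s.γ j) • (1 : Matrix n n ℂ) =
        V * dg (fun _ => s.β - ∑ j, s.γ j) * Vᴴ := by
      rw [dg_const, Matrix.mul_smul, Matrix.mul_one, Matrix.smul_mul, hV']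
    have e2 : cfc s.psi (P + s.lam • K) - ((s.β - ∑ j, s.γ j) • (1 : Matrix n n ℂ) +
        s.α₀ • (P + s.lam • K)) =
        V * dg (fun i => s.psi (ν i) - ((s.β - ∑ j, s.γ j) + s.α₀ * ν i)) * Vᴴ := by
      rw [e1, hBe]
      change cfc s.psi (V * dg ν * Vᴴ) - (V * dg (fun _ => s.β - ∑ j, s.γ j) * Vᴴ +
        s.α₀ • (V * dg ν * Vᴴ)) = _
      rw [smul_conj_dg, dg, dg, cfc_conj_diagonal _ V hV, ← Matrix.add_mul, ← Matrix.mul_add,
        ← Matrix.sub_mul, ← Matrix.mul_sub]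
      congr 2
      rw [dg, dg, diagonal_add, diagonal_sub]
      congr 1
      funext i
      push_cast
      rfl
    rw [e2]
    have h2 : (dg fun i => s.psi (ν i) - ((s.β - ∑ j, s.γ j) + s.α₀ * ν i) :
        Matrix n n ℂ).PosSemidef := by
      refine PosSemidef.diagonal fun i => ?_
      have := s.psi_ge (hν i)
      have h3 : 0 ≤ s.psi (ν i) - ((s.β - ∑ j, s.γ j) + s.α₀ * ν i) := by linarith
      have h4 : (0 : ℂ) ≤ ((s.psi (ν i) - ((s.β - ∑ j, s.γ j) + s.α₀ * ν i) : ℝ) : ℂ) := by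
        exact_mod_cast h3
      exact h4
    exact h2.mul_mul_conjTranspose_same V
  have h3 : ((s.β - ∑ j, s.γ j) • (1 : Matrix n n ℂ)).PosDef :=
    PosDef.one.smul (sub_pos.2 s.pos)
  have h4 : (s.α₀ • P + (s.e + s.lam * s.α₀) • K).PosSemidef :=
    (hP.smul s.α₀_nonneg).add (hK.smul s.cone)
  have e3 : s.H P K = (cfc s.psi (P + s.lam • K) - ((s.β - ∑ j, s.γ j) • (1 : Matrix n n ℂ) +
      s.α₀ • (P + s.lam • K))) + ((s.β - ∑ j, s.γ j) • (1 : Matrix n n ℂ) +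
      (s.α₀ • P + (s.e + s.lam * s.α₀) • K)) := by
    unfold H
    module
  rw [e3]
  exact (h3.add_posSemidef h4).posSemidef_add h1

theorem key_PK {τ : ℝ} (hτ : 0 ≤ τ) {P K : Matrix n n ℂ} (hP : P.PosSemidef)
    (hK : K.PosSemidef) :
    ∫⁻ t, s.om τ t * ENNReal.ofReal (E P K (s.q τ t, s.v τ t)) ∂s.mu ≤
      ENNReal.ofReal (rtr (cfc Real.exp (-(τ • s.H P K)))) := by
  have hQ : (-((τ * s.e) • K)).IsHermitian := by
    refine IsHermitian.neg ?_
    rw [Matrix.IsHermitian, conjTranspose_smul, hK.1.eq]; simp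
  have h := s.key hτ hQ (s.psd_comb hP hK)
  have e1 : -((τ * s.e) • K) - τ • cfc s.psi (P + s.lam • K) = -(τ • s.H P K) := by
    unfold H
    module
  rw [e1] at h
  refine le_trans (le_of_eq ?_) h
  refine lintegral_congr fun t => ?_
  congr 3
  unfold E v
  congr 2
  simp only
  module

/-- exactness for simultaneously diagonal matrices -/
theorem exact_dg {τ : ℝ} (hτ : 0 ≤ τ) {U : Matrix n n ℂ} (hU : Uᴴ * U = 1) {p k : n → ℝ}
    (hp : ∀ i, 0 ≤ p i) (hk : ∀ i, 0 ≤ k i) :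
    ∫⁻ t, s.om τ t * ENNReal.ofReal
      (E (U * dg p * Uᴴ) (U * dg k * Uᴴ) (s.q τ t, s.v τ t)) ∂s.mu =
      ENNReal.ofReal (rtr (cfc Real.exp (-(τ • s.H (U * dg p * Uᴴ) (U * dg k * Uᴴ))))) := by
  have hadd : ∀ c d : n → ℝ, U * dg c * Uᴴ + U * dg d * Uᴴ = U * dg (fun i => c i + d i) * Uᴴ := by
    intro c d
    rw [← Matrix.add_mul, ← Matrix.mul_add, dg, dg, diagonal_add]
    congr 3
    funext i
    push_cast
    rfl
  have hH : s.H (U * dg p * Uᴴ) (U * dg k * Uᴴ) =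
      U * dg (fun i => s.psi (p i + s.lam * k i) + s.e * k i) * Uᴴ := by
    unfold H
    rw [smul_conj_dg, smul_conj_dg, hadd, dg, cfc_conj_diagonal _ U hU]
    exact hadd _ _
  have hE : ∀ t, E (U * dg p * Uᴴ) (U * dg k * Uᴴ) (s.q τ t, s.v τ t) =
      ∑ i, Real.exp (-(τ * s.e * k i)) * Real.exp (-(s.q τ t * (p i + s.lam * k i))) := by
    intro t
    unfold E
    simp only
    have e1 : -(s.q τ t • (U * dg p * Uᴴ) + s.v τ t • (U * dg k * Uᴴ)) =
        U * dg (fun i => -(s.q τ t * p i + s.v τ t * k i)) * Uᴴ := by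
      rw [smul_conj_dg, smul_conj_dg, hadd]
      have := neg_smul_conj_dg U 1 (fun i => s.q τ t * p i + s.v τ t * k i)
      rw [one_smul] at this
      simp only [one_mul] at this
      exact this
    rw [e1, rtr_cfc_dg hU]
    refine Finset.sum_congr rfl fun i _ => ?_
    rw [← Real.exp_add]
    congr 1
    unfold v
    ring
  have hm1 : Measurable fun t : Fin s.J → ℝ => s.om τ t :=
    s.measurable_om.comp (measurable_const.prodMk measurable_id)
  have hm2 : Measurable fun t : Fin s.J → ℝ => s.q τ t :=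
    s.measurable_q.comp (measurable_const.prodMk measurable_id)
  have hm : ∀ i, Measurable fun t : Fin s.J → ℝ =>
      s.om τ t * ENNReal.ofReal (Real.exp (-(s.q τ t * (p i + s.lam * k i)))) := fun i =>
    hm1.mul (ENNReal.measurable_ofReal.comp (by fun_prop))
  calc ∫⁻ t, s.om τ t * ENNReal.ofReal
        (E (U * dg p * Uᴴ) (U * dg k * Uᴴ) (s.q τ t, s.v τ t)) ∂s.mu
      = ∫⁻ t, ∑ i, ENNReal.ofReal (Real.exp (-(τ * s.e * k i))) *
          (s.om τ t * ENNReal.ofReal (Real.exp (-(s.q τ t * (p i + s.lam * k i))))) ∂s.mu := by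
        refine lintegral_congr fun t => ?_
        rw [hE, ENNReal.ofReal_sum_of_nonneg fun i _ => by positivity, Finset.mul_sum]
        refine Finset.sum_congr rfl fun i _ => ?_
        rw [ENNReal.ofReal_mul (Real.exp_pos _).le]
        ring
    _ = ∑ i, ENNReal.ofReal (Real.exp (-(τ * s.e * k i))) *
          ENNReal.ofReal (Real.exp (-(τ * s.psi (p i + s.lam * k i)))) := by
        rw [lintegral_finsetSum _ fun i _ => (hm i).const_mul _]
        refine Finset.sum_congr rfl fun i _ => ?_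
        rw [lintegral_const_mul _ (hm i), s.lintegral_om hτ
          (add_nonneg (hp i) (mul_nonneg s.lam_nonneg (hk i)))]
    _ = _ := by
        rw [hH, neg_smul_conj_dg, rtr_cfc_dg hU, ENNReal.ofReal_sum_of_nonneg fun i _ =>
          (Real.exp_pos _).le]
        refine Finset.sum_congr rfl fun i _ => ?_
        rw [← ENNReal.ofReal_mul (Real.exp_pos _).le, ← Real.exp_add]
        congr 2
        ring

theorem sd_dir {A D : Matrix n n ℂ} (hA : A.IsHermitian) (hD : D.IsHermitian) (τ : ℝ)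
    (t : Fin s.J → ℝ) :
    sd en (s.x τ t • A) (s.y τ t • D) =
      (E (A - D) (A + D) (s.q τ t, s.v τ t) + E (A + D) (A - D) (s.q τ t, s.v τ t)) / 2 -
        E A A (s.q τ t, s.v τ t) := by
  have hs : ∀ (c : ℝ) {M : Matrix n n ℂ}, M.IsHermitian → (c • M).IsHermitian := by
    intro c M hM
    rw [Matrix.IsHermitian, conjTranspose_smul, hM.eq]; simp
  unfold sd
  rw [trF_exp_neg ((hs _ hA).add (hs _ hD)), trF_exp_neg ((hs _ hA).sub (hs _ hD)),
    trF_exp_neg (hs _ hA)]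
  unfold E x y
  have e1 : -((s.q τ t + s.v τ t) • A + (s.v τ t - s.q τ t) • D) =
      -(s.q τ t • (A - D) + s.v τ t • (A + D)) := by module
  have e2 : -((s.q τ t + s.v τ t) • A - (s.v τ t - s.q τ t) • D) =
      -(s.q τ t • (A + D) + s.v τ t • (A - D)) := by module
  have e3 : -((s.q τ t + s.v τ t) • A) = -(s.q τ t • A + s.v τ t • A) := by module
  rw [e1, e2, e3]

theorem PP.dir {A D : Matrix n n ℂ} (h : PP A D) {x y : ℝ} (hxy : |y| ≤ x) :
    PP (x • A) (y • D) := by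
  obtain ⟨h1, h2⟩ := abs_le.1 hxy
  constructor
  · have e : x • A + y • D = ((x + y) / 2) • (A + D) + ((x - y) / 2) • (A - D) := by module
    rw [e]
    exact (h.add.smul (by linarith)).add (h.sub.smul (by linarith))
  · have e : x • A - y • D = ((x + y) / 2) • (A - D) + ((x - y) / 2) • (A + D) := by module
    rw [e]
    exact (h.sub.smul (by linarith)).add (h.add.smul (by linarith))

theorem measurable_E' {P K : Matrix n n ℂ} (hP : P.IsHermitian) (hK : K.IsHermitian) :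
    Measurable fun p : ℝ × (Fin s.J → ℝ) => E P K (s.q p.1 p.2, s.v p.1 p.2) :=
  (continuous_E hP hK).measurable.comp (s.measurable_q.prodMk s.measurable_v)

theorem measurable_E_fix {P K : Matrix n n ℂ} (hP : P.IsHermitian) (hK : K.IsHermitian)
    (τ : ℝ) : Measurable fun t : Fin s.J → ℝ => E P K (s.q τ t, s.v τ t) := by
  have hc : Measurable fun t : Fin s.J → ℝ => ((τ, t) : ℝ × (Fin s.J → ℝ)) :=
    measurable_const.prodMk measurable_id
  have h1 : Measurable fun t : Fin s.J → ℝ => s.q τ t := s.measurable_q.comp hc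
  have h2 : Measurable fun t : Fin s.J → ℝ => s.v τ t := s.measurable_v.comp hc
  have h3 : Measurable fun t : Fin s.J → ℝ => ((s.q τ t, s.v τ t) : ℝ × ℝ) := h1.prodMk h2
  exact Measurable.comp (g := E P K) (f := fun t : Fin s.J → ℝ => ((s.q τ t, s.v τ t) : ℝ × ℝ))
    (continuous_E hP hK).measurable h3

theorem measurable_sd {A D : Matrix n n ℂ} (h : PP A D) :
    Measurable fun p : ℝ × (Fin s.J → ℝ) => sd en (s.x p.1 p.2 • A) (s.y p.1 p.2 • D) := by
  have e : (fun p : ℝ × (Fin s.J → ℝ) => sd en (s.x p.1 p.2 • A) (s.y p.1 p.2 • D)) =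
      fun p => (E (A - D) (A + D) (s.q p.1 p.2, s.v p.1 p.2) +
        E (A + D) (A - D) (s.q p.1 p.2, s.v p.1 p.2)) / 2 -
        E A A (s.q p.1 p.2, s.v p.1 p.2) := by
    funext p
    exact s.sd_dir h.psd.1 h.herm p.1 p.2
  rw [e]
  exact (((s.measurable_E' h.sub.1 h.add.1).add (s.measurable_E' h.add.1 h.sub.1)).div_const
    2).sub (s.measurable_E' h.psd.1 h.psd.1)

theorem exact_AA {τ : ℝ} (hτ : 0 ≤ τ) {A : Matrix n n ℂ} (hA : A.PosSemidef) :
    ∫⁻ t, s.om τ t * ENNReal.ofReal (E A A (s.q τ t, s.v τ t)) ∂s.mu =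
      ENNReal.ofReal (rtr (cfc Real.exp (-(τ • s.H A A)))) := by
  obtain ⟨U, a, hU, hU', ha, rfl⟩ := exists_spectral_nonneg hA
  exact s.exact_dg hτ hU ha ha

/-- the integral of the second difference, for fixed `τ` -/
theorem lintegral_sd_add {τ : ℝ} (hτ : 0 ≤ τ) {A D : Matrix n n ℂ} (h : PP A D) :
    ∫⁻ t, s.om τ t * ENNReal.ofReal (2 * sd en (s.x τ t • A) (s.y τ t • D)) ∂s.mu +
      2 * ENNReal.ofReal (rtr (cfc Real.exp (-(τ • s.H A A)))) =
    (∫⁻ t, s.om τ t * ENNReal.ofReal (E (A - D) (A + D) (s.q τ t, s.v τ t)) ∂s.mu) +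
    (∫⁻ t, s.om τ t * ENNReal.ofReal (E (A + D) (A - D) (s.q τ t, s.v τ t)) ∂s.mu) := by
  have hc : Measurable fun t : Fin s.J → ℝ => ((τ, t) : ℝ × (Fin s.J → ℝ)) :=
    measurable_const.prodMk measurable_id
  have hm1 : Measurable fun t : Fin s.J → ℝ => s.om τ t := s.measurable_om.comp hc
  rw [← s.exact_AA hτ h.psd]
  exact comb_aux s.mu hm1 (s.measurable_E_fix h.sub.1 h.add.1 τ)
    (s.measurable_E_fix h.psd.1 h.psd.1 τ)
    (fun t => E_nonneg h.sub.1 h.add.1 _) (fun t => E_nonneg h.add.1 h.sub.1 _)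
    (fun t => E_nonneg h.psd.1 h.psd.1 _)
    (fun t => sd_nonneg convexOn_exp_neg (PP.dir h (s.abs_y_le hτ t)))
    (fun t => s.sd_dir h.psd.1 h.herm τ t)

theorem ennr_sub {I : ℝ≥0∞} {T₀ T₁ T₂ : ℝ} (h₀ : 0 ≤ T₀) (h₁ : 0 ≤ T₁) (h₂ : 0 ≤ T₂)
    (h : I + 2 * ENNReal.ofReal T₀ ≤ ENNReal.ofReal T₁ + ENNReal.ofReal T₂) :
    I ≤ ENNReal.ofReal (2 * (T₁ / 2 + T₂ / 2 - T₀)) ∧ 0 ≤ T₁ / 2 + T₂ / 2 - T₀ := by
  have e2 : 2 * ENNReal.ofReal T₀ = ENNReal.ofReal (2 * T₀) := by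
    rw [ENNReal.ofReal_mul two_pos.le, ENNReal.ofReal_ofNat]
  rw [e2, ← ENNReal.ofReal_add h₁ h₂] at h
  have h3 : 2 * T₀ ≤ T₁ + T₂ := by
    have : ENNReal.ofReal (2 * T₀) ≤ ENNReal.ofReal (T₁ + T₂) := le_trans le_add_self h
    exact (ENNReal.ofReal_le_ofReal_iff (by positivity)).1 this
  have h4 : (0 : ℝ) ≤ 2 * (T₁ / 2 + T₂ / 2 - T₀) := by linarith
  refine ⟨?_, by linarith⟩
  have e3 : ENNReal.ofReal (T₁ + T₂) =
      ENNReal.ofReal (2 * (T₁ / 2 + T₂ / 2 - T₀)) + ENNReal.ofReal (2 * T₀) := by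
    rw [← ENNReal.ofReal_add h4 (by positivity)]
    congr 1
    ring
  rw [e3] at h
  exact (ENNReal.add_le_add_iff_right ENNReal.ofReal_ne_top).1 h

theorem ennr_sub_eq {I : ℝ≥0∞} {T₀ T₁ T₂ : ℝ} (h₀ : 0 ≤ T₀) (h₁ : 0 ≤ T₁) (h₂ : 0 ≤ T₂)
    (h : I + 2 * ENNReal.ofReal T₀ = ENNReal.ofReal T₁ + ENNReal.ofReal T₂) :
    I = ENNReal.ofReal (2 * (T₁ / 2 + T₂ / 2 - T₀)) ∧ 0 ≤ T₁ / 2 + T₂ / 2 - T₀ := by
  obtain ⟨h5, h6⟩ := ennr_sub h₀ h₁ h₂ h.le
  refine ⟨?_, h6⟩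
  have e2 : 2 * ENNReal.ofReal T₀ = ENNReal.ofReal (2 * T₀) := by
    rw [ENNReal.ofReal_mul two_pos.le, ENNReal.ofReal_ofNat]
  have e3 : ENNReal.ofReal T₁ + ENNReal.ofReal T₂ =
      ENNReal.ofReal (2 * (T₁ / 2 + T₂ / 2 - T₀)) + ENNReal.ofReal (2 * T₀) := by
    rw [← ENNReal.ofReal_add h₁ h₂, ← ENNReal.ofReal_add (by positivity) (by positivity)]
    congr 1
    ring
  rw [e2, e3] at h
  exact (ENNReal.add_left_inj ENNReal.ofReal_ne_top).1 h

/-- the sheet functional: `∫ dτ/τ ∫ ω_τ(dt) 2 sd exp(-·) (x A, y D)` -/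
noncomputable def W (A D : Matrix n n ℂ) : ℝ≥0∞ :=
  ∫⁻ τ in Ioi (0 : ℝ), ENNReal.ofReal τ⁻¹ *
    ∫⁻ t, s.om τ t * ENNReal.ofReal (2 * sd en (s.x τ t • A) (s.y τ t • D)) ∂s.mu

/-- the logarithmic side -/
noncomputable def L (A D : Matrix n n ℂ) : ℝ :=
  2 * (Ld (s.H A A) - Ld (s.H (A - D) (A + D)) / 2 - Ld (s.H (A + D) (A - D)) / 2)

theorem L_lintegral {A D : Matrix n n ℂ} (h : PP A D)
    (hpos : ∀ τ ∈ Ioi (0 : ℝ), 0 ≤ rtr (cfc Real.exp (-(τ • s.H (A - D) (A + D)))) / 2 +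
      rtr (cfc Real.exp (-(τ • s.H (A + D) (A - D)))) / 2 -
        rtr (cfc Real.exp (-(τ • s.H A A)))) :
    ENNReal.ofReal (s.L A D) = ∫⁻ τ in Ioi (0 : ℝ), ENNReal.ofReal τ⁻¹ *
      ENNReal.ofReal (2 * (rtr (cfc Real.exp (-(τ • s.H (A - D) (A + D)))) / 2 +
      rtr (cfc Real.exp (-(τ • s.H (A + D) (A - D)))) / 2 -
        rtr (cfc Real.exp (-(τ • s.H A A))))) := by
  obtain ⟨i1, e1⟩ := fru_comb (s.H_posDef h.sub h.add) (s.H_posDef h.add h.sub)
    (s.H_posDef h.psd h.psd)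
  have e2 : ∫⁻ τ in Ioi (0 : ℝ), ENNReal.ofReal τ⁻¹ *
      ENNReal.ofReal (2 * (rtr (cfc Real.exp (-(τ • s.H (A - D) (A + D)))) / 2 +
      rtr (cfc Real.exp (-(τ • s.H (A + D) (A - D)))) / 2 -
        rtr (cfc Real.exp (-(τ • s.H A A))))) = ∫⁻ τ in Ioi (0 : ℝ), ENNReal.ofReal (2 *
      (τ⁻¹ * (rtr (cfc Real.exp (-(τ • s.H (A - D) (A + D)))) / 2 +
      rtr (cfc Real.exp (-(τ • s.H (A + D) (A - D)))) / 2 -
        rtr (cfc Real.exp (-(τ • s.H A A)))))) := by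
    refine setLIntegral_congr_fun measurableSet_Ioi fun τ hτ => ?_
    have hτ0 : (0 : ℝ) < τ := hτ
    rw [← ENNReal.ofReal_mul (inv_nonneg.2 hτ0.le)]
    congr 1
    ring
  rw [e2, ← ofReal_integral_eq_lintegral_ofReal (i1.const_mul 2), integral_const_mul, e1]
  · rfl
  · rw [EventuallyLE, ae_restrict_iff' measurableSet_Ioi]
    refine Eventually.of_forall fun τ hτ => ?_
    have hτ0 : (0 : ℝ) < τ := hτ
    have := hpos τ hτ
    simp only [Pi.zero_apply]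
    positivity

theorem rtr_expH_nonneg {P K : Matrix n n ℂ} (hP : P.PosSemidef) (hK : K.PosSemidef) (τ : ℝ) :
    0 ≤ rtr (cfc Real.exp (-(τ • s.H P K))) := by
  refine rtr_exp_nonneg (IsHermitian.neg ?_)
  rw [Matrix.IsHermitian, conjTranspose_smul, (s.H_posDef hP hK).1.eq]; simp

theorem step_le {A D : Matrix n n ℂ} (h : PP A D) {τ : ℝ} (hτ : 0 ≤ τ) :
    ∫⁻ t, s.om τ t * ENNReal.ofReal (2 * sd en (s.x τ t • A) (s.y τ t • D)) ∂s.mu ≤
      ENNReal.ofReal (2 * (rtr (cfc Real.exp (-(τ • s.H (A - D) (A + D)))) / 2 +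
      rtr (cfc Real.exp (-(τ • s.H (A + D) (A - D)))) / 2 -
        rtr (cfc Real.exp (-(τ • s.H A A))))) ∧
    0 ≤ rtr (cfc Real.exp (-(τ • s.H (A - D) (A + D)))) / 2 +
      rtr (cfc Real.exp (-(τ • s.H (A + D) (A - D)))) / 2 -
        rtr (cfc Real.exp (-(τ • s.H A A))) := by
  refine ennr_sub (s.rtr_expH_nonneg h.psd h.psd τ) (s.rtr_expH_nonneg h.sub h.add τ)
    (s.rtr_expH_nonneg h.add h.sub τ) ?_
  rw [s.lintegral_sd_add hτ h]
  exact add_le_add (s.key_PK hτ h.sub h.add) (s.key_PK hτ h.add h.sub)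

/-- **The sheet inequality.** -/
theorem W_le {A D : Matrix n n ℂ} (h : PP A D) : s.W A D ≤ ENNReal.ofReal (s.L A D) := by
  rw [s.L_lintegral h fun τ hτ => (s.step_le h (le_of_lt hτ)).2]
  refine setLIntegral_mono' measurableSet_Ioi fun τ hτ => ?_
  gcongr
  exact (s.step_le h (le_of_lt hτ)).1

theorem L_nonneg {A D : Matrix n n ℂ} (h : PP A D) : 0 ≤ s.L A D := by
  obtain ⟨i1, e1⟩ := fru_comb (s.H_posDef h.sub h.add) (s.H_posDef h.add h.sub)
    (s.H_posDef h.psd h.psd)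
  unfold L
  rw [← e1]
  refine mul_nonneg two_pos.le (setIntegral_nonneg measurableSet_Ioi fun τ hτ => ?_)
  exact mul_nonneg (inv_nonneg.2 (le_of_lt hτ)) (s.step_le h (le_of_lt hτ)).2

theorem step_eq {U : Matrix n n ℂ} (hU : Uᴴ * U = 1) {a d : n → ℝ}
    (had : ∀ i, |d i| ≤ a i) {A D : Matrix n n ℂ} (hA : A = U * dg a * Uᴴ)
    (hD : D = U * dg d * Uᴴ) {τ : ℝ} (hτ : 0 ≤ τ) :
    ∫⁻ t, s.om τ t * ENNReal.ofReal (2 * sd en (s.x τ t • A) (s.y τ t • D)) ∂s.mu =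
      ENNReal.ofReal (2 * (rtr (cfc Real.exp (-(τ • s.H (A - D) (A + D)))) / 2 +
      rtr (cfc Real.exp (-(τ • s.H (A + D) (A - D)))) / 2 -
        rtr (cfc Real.exp (-(τ • s.H A A))))) := by
  have hadd : A + D = U * dg (fun i => a i + d i) * Uᴴ := by
    rw [hA, hD, ← Matrix.add_mul, ← Matrix.mul_add, dg, dg, diagonal_add]
    congr 3
    funext i
    push_cast
    rfl
  have hsub : A - D = U * dg (fun i => a i - d i) * Uᴴ := by
    rw [hA, hD, ← Matrix.sub_mul, ← Matrix.mul_sub, dg, dg, diagonal_sub]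
    congr 3
    funext i
    push_cast
    rfl
  have h1 : ∀ i, 0 ≤ a i + d i := fun i => by have := (abs_le.1 (had i)).1; linarith
  have h2 : ∀ i, 0 ≤ a i - d i := fun i => by have := (abs_le.1 (had i)).2; linarith
  have hpsd : ∀ c : n → ℝ, (∀ i, 0 ≤ c i) → (U * dg c * Uᴴ).PosSemidef := by
    intro c hc
    have h3 : (dg c : Matrix n n ℂ).PosSemidef := by
      refine PosSemidef.diagonal fun i => ?_
      have h4 : (0 : ℂ) ≤ ((c i : ℝ) : ℂ) := by exact_mod_cast hc i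
      exact h4
    exact h3.mul_mul_conjTranspose_same U
  have h : PP A D := ⟨hadd ▸ hpsd _ h1, hsub ▸ hpsd _ h2⟩
  refine (ennr_sub_eq (s.rtr_expH_nonneg h.psd h.psd τ) (s.rtr_expH_nonneg h.sub h.add τ)
    (s.rtr_expH_nonneg h.add h.sub τ) ?_).1
  rw [s.lintegral_sd_add hτ h, hadd, hsub, s.exact_dg hτ hU h2 h1, s.exact_dg hτ hU h1 h2]

/-- **Equality for commuting pairs.** -/
theorem W_eq {U : Matrix n n ℂ} (hU : Uᴴ * U = 1) {a d : n → ℝ}
    (had : ∀ i, |d i| ≤ a i) {A D : Matrix n n ℂ} (h : PP A D) (hA : A = U * dg a * Uᴴ)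
    (hD : D = U * dg d * Uᴴ) : s.W A D = ENNReal.ofReal (s.L A D) := by
  rw [s.L_lintegral h fun τ hτ => (s.step_le h (le_of_lt hτ)).2]
  refine setLIntegral_congr_fun measurableSet_Ioi fun τ hτ => ?_
  rw [s.step_eq hU had hA hD (le_of_lt hτ)]

end

end Sheet

end Pool.Agent.Lib_helper59.RCT
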