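import Mathlib
import Pool.Agent.Lib_helper59.RCT.Sheet

/-!
# The interface: exponential domination

`sd f A D = (tr f(A + D) + tr f(A - D)) / 2 - tr f(A)`, `en x = exp (-x)`, `nl x = -log (1 + x)`.
-/

set_option autoImplicit false
set_option linter.unusedSectionVars false

open scoped ENNReal ComplexOrder Kronecker

namespace Pool.Agent.Lib_helper59.RCT

open Matrix MeasureTheory

/-- `-log (1 + x)` -/
noncomputable abbrev nl : ℝ → ℝ := fun x => -Real.log (1 + x)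

/-- a measure on the directions which dominates the pair `(A2, D2)` exponentially -/
structure ExpMeas {m : Type} [Fintype m] [DecidableEq m] (A2 D2 : Matrix m m ℂ)
    (μ : Measure (ℝ × ℝ)) : Prop where
  sfin : SFinite μ
  adm : ∀ᵐ p ∂μ, |p.2| ≤ p.1
  le : ∀ (ι : Type) [Fintype ι] [DecidableEq ι] (A D : Matrix ι ι ℂ), PP A D →
    ∀ u : ℝ, 0 < u → ∫⁻ p, ENNReal.ofReal (sd en ((u * p.1) • A) ((u * p.2) • D)) ∂μ ≤
      ENNReal.ofReal (sd nl (u • (A ⊗ₖ A2)) (u • (D ⊗ₖ D2)))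
  eq : ∀ u : ℝ, 0 < u →
    ∫⁻ p, ENNReal.ofReal (sd en ((u * p.1) • (1 : Matrix (Fin 1) (Fin 1) ℂ))
      ((u * p.2) • (1 : Matrix (Fin 1) (Fin 1) ℂ))) ∂μ =
      ENNReal.ofReal (sd nl (u • A2) (u • D2))

/-- exponential domination of a pair -/
def ExpDom {m : Type} [Fintype m] [DecidableEq m] (A2 D2 : Matrix m m ℂ) : Prop :=
  ∃ μ : Measure (ℝ × ℝ), ExpMeas A2 D2 μ

end Pool.Agent.Lib_helper59.RCT
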