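import Mathlib
import Pool.Agent.Lib_helper59.RCT.Iface
import Pool.Agent.Lib_helper66.LDK.Det

/-!
# Exponential domination: the directions of a sheet as a measure
-/

set_option autoImplicit false
set_option linter.unusedSectionVars false
set_option linter.unusedSimpArgs false

open scoped ENNReal ComplexOrder Kronecker

namespace Pool.Agent.Lib_helper59.RCT

open Matrix MeasureTheory Set Filter
open Pool.Agent.Lib_helper98.Renyi Pool.Agent.Lib_helper59.Lieb

section

variable {n : Type*} [Fintype n] [DecidableEq n]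

theorem herm_smul {M : Matrix n n ℂ} (h : M.IsHermitian) (c : ℝ) : (c • M).IsHermitian := by
  rw [Matrix.IsHermitian, conjTranspose_smul, h.eq]; simp

theorem sd_en_eq {A D : Matrix n n ℂ} (hA : A.IsHermitian) (hD : D.IsHermitian) (p : ℝ × ℝ) :
    sd en (p.1 • A) (p.2 • D) =
      (E A D (p.1, p.2) + E A D (p.1, -p.2)) / 2 - E A D (p.1, 0) := by
  unfold sd
  rw [trF_exp_neg ((herm_smul hA _).add (herm_smul hD _)),
    trF_exp_neg ((herm_smul hA _).sub (herm_smul hD _)), trF_exp_neg (herm_smul hA _)]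
  unfold E
  simp only [neg_smul, zero_smul, add_zero, sub_eq_add_neg]

theorem continuous_sd_en {A D : Matrix n n ℂ} (hA : A.IsHermitian) (hD : D.IsHermitian) :
    Continuous fun p : ℝ × ℝ => sd en (p.1 • A) (p.2 • D) := by
  have e : (fun p : ℝ × ℝ => sd en (p.1 • A) (p.2 • D)) = fun p =>
      (E A D (p.1, p.2) + E A D (p.1, -p.2)) / 2 - E A D (p.1, 0) := by
    funext p
    exact sd_en_eq hA hD p
  rw [e]
  have hE := continuous_E hA hD
  exact (((hE.comp (continuous_fst.prodMk continuous_snd)).add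
    (hE.comp (continuous_fst.prodMk continuous_snd.neg))).div_const 2).sub
    (hE.comp (continuous_fst.prodMk continuous_const))

theorem measurable_sd_en {A D : Matrix n n ℂ} (hA : A.IsHermitian) (hD : D.IsHermitian) :
    Measurable fun p : ℝ × ℝ => ENNReal.ofReal (sd en (p.1 • A) (p.2 • D)) :=
  ENNReal.measurable_ofReal.comp (continuous_sd_en hA hD).measurable

end

namespace Sheet

variable (s : Sheet)

/-- reference measure on `(τ, t)` -/
noncomputable def base : Measure (ℝ × (Fin s.J → ℝ)) :=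
  (volume.restrict (Ioi (0 : ℝ))).prod s.mu

/-- the directions -/
noncomputable def xy (p : ℝ × (Fin s.J → ℝ)) : ℝ × ℝ := (s.x p.1 p.2, s.y p.1 p.2)

theorem measurable_xy : Measurable s.xy := s.measurable_x.prodMk s.measurable_y

/-- the density -/
noncomputable def dens (p : ℝ × (Fin s.J → ℝ)) : ℝ≥0∞ := ENNReal.ofReal (p.1⁻¹) * s.om p.1 p.2

theorem measurable_dens : Measurable s.dens := by
  unfold dens
  exact (ENNReal.measurable_ofReal.comp measurable_fst.inv).mul s.measurable_om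

/-- the measure of the directions of a sheet -/
noncomputable def dm : Measure (ℝ × ℝ) := (s.base.withDensity s.dens).map s.xy

instance : SFinite s.dm := by
  unfold dm base
  infer_instance

theorem ae_dm : ∀ᵐ p ∂s.dm, |p.2| ≤ p.1 := by
  unfold dm
  rw [ae_map_iff s.measurable_xy.aemeasurable
    (measurableSet_le measurable_snd.abs measurable_fst)]
  have h1 : ∀ᵐ p ∂s.base, p.1 ∈ Ioi (0 : ℝ) := by
    have h2 : ∀ᵐ τ ∂(volume.restrict (Ioi (0 : ℝ))), τ ∈ Ioi (0 : ℝ) :=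
      ae_restrict_mem measurableSet_Ioi
    exact (Measure.quasiMeasurePreserving_fst (μ := volume.restrict (Ioi (0 : ℝ)))
      (ν := s.mu)).ae h2
  have h3 := (withDensity_absolutelyContinuous s.base s.dens).ae_le h1
  filter_upwards [h3] with p hp
  exact s.abs_y_le (le_of_lt hp) p.2

theorem lintegral_dm {f : ℝ × ℝ → ℝ≥0∞} (hf : Measurable f) :
    ∫⁻ p, f p ∂s.dm = ∫⁻ τ in Ioi (0 : ℝ), ENNReal.ofReal τ⁻¹ *
      ∫⁻ t, s.om τ t * f (s.x τ t, s.y τ t) ∂s.mu := by
  have hfx : Measurable fun p => f (s.xy p) :=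
    Measurable.comp (g := f) (f := s.xy) hf s.measurable_xy
  unfold dm
  rw [lintegral_map hf s.measurable_xy,
    lintegral_withDensity_eq_lintegral_mul _ s.measurable_dens hfx]
  unfold base
  rw [lintegral_prod _ (s.measurable_dens.mul hfx).aemeasurable]
  refine lintegral_congr fun τ => ?_
  have hc : Measurable fun t : Fin s.J → ℝ => ((τ, t) : ℝ × (Fin s.J → ℝ)) :=
    measurable_const.prodMk measurable_id
  have hm1 : Measurable fun t : Fin s.J → ℝ => s.om τ t :=
    Measurable.comp (g := fun p : ℝ × (Fin s.J → ℝ) => s.om p.1 p.2)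
      (f := fun t : Fin s.J → ℝ => ((τ, t) : ℝ × (Fin s.J → ℝ))) s.measurable_om hc
  have hm2 : Measurable fun t : Fin s.J → ℝ => f (s.xy (τ, t)) :=
    Measurable.comp (g := fun p => f (s.xy p))
      (f := fun t : Fin s.J → ℝ => ((τ, t) : ℝ × (Fin s.J → ℝ))) hfx hc
  have h3 := lintegral_const_mul (μ := s.mu) (ENNReal.ofReal τ⁻¹) (hm1.mul hm2)
  refine Eq.trans (lintegral_congr fun t => ?_) h3
  simp only [Pi.mul_apply, dens, mul_assoc]

section

variable {n : Type*} [Fintype n] [DecidableEq n]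

theorem W_eq_dm {A D : Matrix n n ℂ} (h : PP A D) :
    s.W A D = 2 * ∫⁻ p, ENNReal.ofReal (sd en (p.1 • A) (p.2 • D)) ∂s.dm := by
  rw [← lintegral_const_mul _ (measurable_sd_en h.psd.1 h.herm),
    s.lintegral_dm ((measurable_sd_en h.psd.1 h.herm).const_mul 2)]
  unfold W
  refine lintegral_congr fun τ => ?_
  congr 1
  refine lintegral_congr fun t => ?_
  rw [ENNReal.ofReal_mul two_pos.le, ENNReal.ofReal_ofNat]

theorem dm_le {A D : Matrix n n ℂ} (h : PP A D) :
    ∫⁻ p, ENNReal.ofReal (sd en (p.1 • A) (p.2 • D)) ∂s.dm ≤ ENNReal.ofReal (s.L A D / 2) := by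
  have h1 := s.W_le h
  rw [s.W_eq_dm h] at h1
  have h2 : ENNReal.ofReal (s.L A D) = 2 * ENNReal.ofReal (s.L A D / 2) := by
    rw [← ENNReal.ofReal_ofNat, ← ENNReal.ofReal_mul (by norm_num)]
    congr 1
    ring
  rw [h2] at h1
  exact (ENNReal.mul_le_mul_iff_right (by norm_num) (by norm_num)).1 h1

theorem dm_eq {U : Matrix n n ℂ} (hU : Uᴴ * U = 1) {a d : n → ℝ}
    (had : ∀ i, |d i| ≤ a i) {A D : Matrix n n ℂ} (h : PP A D) (hA : A = U * dg a * Uᴴ)
    (hD : D = U * dg d * Uᴴ) :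
    ∫⁻ p, ENNReal.ofReal (sd en (p.1 • A) (p.2 • D)) ∂s.dm = ENNReal.ofReal (s.L A D / 2) := by
  have h1 := s.W_eq hU had h hA hD
  rw [s.W_eq_dm h] at h1
  have h2 : ENNReal.ofReal (s.L A D) = 2 * ENNReal.ofReal (s.L A D / 2) := by
    rw [← ENNReal.ofReal_ofNat, ← ENNReal.ofReal_mul (by norm_num)]
    congr 1
    ring
  rw [h2] at h1
  exact (ENNReal.mul_right_inj (by norm_num) (by norm_num)).1 h1

end

end Sheet

/-! ### the logarithmic side -/

section

variable {n : Type*} [Fintype n] [DecidableEq n]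

theorem one_add_conj_dg {U : Matrix n n ℂ} (hU' : U * Uᴴ = 1) (c : n → ℝ) :
    1 + U * dg c * Uᴴ = U * dg (fun i => 1 + c i) * Uᴴ := by
  have e1 : (1 : Matrix n n ℂ) = U * dg (fun _ => (1 : ℝ)) * Uᴴ := by
    have h := dg_const (n := n) 1
    rw [h, Matrix.mul_smul, Matrix.mul_one, Matrix.smul_mul, hU', one_smul]
  nth_rewrite 1 [e1]
  rw [← Matrix.add_mul, ← Matrix.mul_add, dg, dg, diagonal_add]
  congr 3
  funext i
  push_cast
  rfl

theorem trF_nl {X : Matrix n n ℂ} (hX : X.PosSemidef) : trF nl X = -Ld (1 + X) := by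
  obtain ⟨U, c, hU, hU', hc, rfl⟩ := exists_spectral_nonneg hX
  have h1 := one_add_conj_dg hU' c
  rw [dg] at h1
  rw [h1, trF_conj_diagonal _ U hU, Ld, rtr_cfc_dg hU, Finset.sum_neg_distrib]

theorem Ld_eq_ldet {M : Matrix n n ℂ} (hM : M.PosDef) : Ld M = Pool.Agent.LDK.ldet M := by
  obtain ⟨U, c, hU, hU', hc, rfl⟩ := exists_spectral_pos hM
  rw [Ld, rtr_cfc_dg hU, Pool.Agent.LDK.ldet]
  have h1 : (U * dg c * Uᴴ).det = ((∏ i, c i : ℝ) : ℂ) := by
    rw [Matrix.det_mul, Matrix.det_mul, mul_comm U.det, mul_assoc, ← Matrix.det_mul, hU',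
      Matrix.det_one, mul_one, dg, det_diagonal]
    push_cast
    rfl
  rw [h1, Complex.ofReal_re, Real.log_prod fun i _ => (hc i).ne']

theorem cfc_affine {B : Matrix n n ℂ} (hB : B.IsHermitian) (b a : ℝ) :
    cfc (fun x => b + a * x) B = b • (1 : Matrix n n ℂ) + a • B := by
  obtain ⟨U, c, hU, hU', rfl⟩ := exists_spectral hB
  have e1 : b • (1 : Matrix n n ℂ) = U * dg (fun _ => b) * Uᴴ := by
    rw [dg_const, Matrix.mul_smul, Matrix.mul_one, Matrix.smul_mul, hU']
  have e2 := smul_conj_dg U a c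
  rw [dg] at e2
  rw [cfc_conj_diagonal _ U hU, e1, e2, ← Matrix.add_mul, ← Matrix.mul_add, dg, dg, diagonal_add]
  congr 3
  funext i
  push_cast
  rfl

end

/-- an affine leaf `1 + a (P + lam K)` as a sheet -/
noncomputable def leaf (a lam : ℝ) (ha : 0 ≤ a) (hl : 0 ≤ lam) : Sheet where
  J := 0
  β := 1
  α₀ := a
  lam := lam
  e := 0
  γ := Fin.elim0
  a := Fin.elim0
  α₀_nonneg := ha
  lam_nonneg := hl
  cone := by positivity
  γ_nonneg := fun j => j.elim0
  a_nonneg := fun j => j.elim0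
  pos := by simp

theorem leaf_H {a lam : ℝ} (ha : 0 ≤ a) (hl : 0 ≤ lam) {n : Type*} [Fintype n] [DecidableEq n]
    {P K : Matrix n n ℂ} (hP : P.IsHermitian) (hK : K.IsHermitian) :
    (leaf a lam ha hl).H P K = 1 + a • (P + lam • K) := by
  have h1 : (leaf a lam ha hl).psi = fun x => 1 + a * x := by
    funext x
    have h : ∑ j : Fin (leaf a lam ha hl).J, (leaf a lam ha hl).γ j /
        (1 + (leaf a lam ha hl).a j * x) = 0 :=
      Finset.sum_eq_zero fun j _ => absurd (show (j : ℕ) < 0 from j.2) (Nat.not_lt_zero _)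
    rw [Sheet.psi, h, sub_zero]
    rfl
  unfold Sheet.H
  rw [h1]
  have h2 : (leaf a lam ha hl).lam = lam := rfl
  have h3 : (leaf a lam ha hl).e = 0 := rfl
  rw [h2, h3, zero_smul, add_zero, cfc_affine (hP.add (herm_smul hK _)), one_smul]

section

variable {m : Type} [Fintype m] [DecidableEq m]

/-- exponential domination with equality for all diagonal pairs, normalised at `u = 1` -/
def DiagDom (A2 D2 : Matrix m m ℂ) : Prop :=
  ∃ μ : Measure (ℝ × ℝ), SFinite μ ∧ (∀ᵐ p ∂μ, |p.2| ≤ p.1) ∧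
    (∀ {n : Type} [Fintype n] [DecidableEq n] {A D : Matrix n n ℂ}, PP A D →
      ∫⁻ p, ENNReal.ofReal (sd en (p.1 • A) (p.2 • D)) ∂μ ≤
        ENNReal.ofReal (sd nl (A ⊗ₖ A2) (D ⊗ₖ D2))) ∧
    (∀ {n : Type} [Fintype n] [DecidableEq n] (a d : n → ℝ), (∀ i, |d i| ≤ a i) →
      ∫⁻ p, ENNReal.ofReal (sd en (p.1 • (dg a : Matrix n n ℂ)) (p.2 • (dg d))) ∂μ =
        ENNReal.ofReal (sd nl ((dg a) ⊗ₖ A2) ((dg d) ⊗ₖ D2)))

theorem PP.dg {n : Type*} [Fintype n] [DecidableEq n] {a d : n → ℝ} (had : ∀ i, |d i| ≤ a i) :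
    PP (dg a : Matrix n n ℂ) (dg d) := by
  have hpsd : ∀ c : n → ℝ, (∀ i, 0 ≤ c i) → (Lieb.dg c : Matrix n n ℂ).PosSemidef := by
    intro c hc
    refine PosSemidef.diagonal fun i => ?_
    have h4 : (0 : ℂ) ≤ ((c i : ℝ) : ℂ) := by exact_mod_cast hc i
    exact h4
  constructor
  · have e : (Lieb.dg a : Matrix n n ℂ) + Lieb.dg d = Lieb.dg (fun i => a i + d i) := by
      rw [Lieb.dg, Lieb.dg, Lieb.dg, diagonal_add]
      congr 1
      funext i
      push_cast
      rfl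
    rw [e]
    exact hpsd _ fun i => by have := (abs_le.1 (had i)).1; linarith
  · have e : (Lieb.dg a : Matrix n n ℂ) - Lieb.dg d = Lieb.dg (fun i => a i - d i) := by
      rw [Lieb.dg, Lieb.dg, Lieb.dg, diagonal_sub]
      congr 1
      funext i
      push_cast
      rfl
    rw [e]
    exact hpsd _ fun i => by have := (abs_le.1 (had i)).2; linarith

/-- `Fin 1 × m ≃ m` -/
def e1 (m : Type) : Fin 1 × m ≃ m where
  toFun p := p.2
  invFun i := (0, i)
  left_inv p := by ext <;> simp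
  right_inv i := rfl

theorem trF_nl_kron {u : ℝ} (hu : 0 ≤ u) {X : Matrix m m ℂ} (hX : X.PosSemidef) :
    trF nl ((u • (1 : Matrix (Fin 1) (Fin 1) ℂ)) ⊗ₖ X) = trF nl (u • X) := by
  have h1 : ((u • (1 : Matrix (Fin 1) (Fin 1) ℂ)) ⊗ₖ X).PosSemidef :=
    (PosSemidef.one.smul hu).kronecker hX
  have h2 : (u • X).PosSemidef := hX.smul hu
  rw [trF_nl h1, trF_nl h2, Ld_eq_ldet (PosDef.one.add_posSemidef h1),
    Ld_eq_ldet (PosDef.one.add_posSemidef h2), Pool.Agent.LDK.ldet, Pool.Agent.LDK.ldet]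
  have h3 : Matrix.reindex (e1 m) (e1 m)
      (1 + (u • (1 : Matrix (Fin 1) (Fin 1) ℂ)) ⊗ₖ X) = 1 + u • X := by
    ext i j
    simp [e1, Matrix.one_apply, Matrix.kroneckerMap_apply]
  rw [← h3, Matrix.det_reindex_self]

theorem sd_nl_kron {u : ℝ} (hu : 0 ≤ u) {A2 D2 : Matrix m m ℂ} (h : PP A2 D2) :
    sd nl ((u • (1 : Matrix (Fin 1) (Fin 1) ℂ)) ⊗ₖ A2)
      ((u • (1 : Matrix (Fin 1) (Fin 1) ℂ)) ⊗ₖ D2) = sd nl (u • A2) (u • D2) := by
  unfold sd
  have e1 : (u • (1 : Matrix (Fin 1) (Fin 1) ℂ)) ⊗ₖ A2 - (u • (1 : Matrix (Fin 1) (Fin 1) ℂ)) ⊗ₖ D2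
      = (u • (1 : Matrix (Fin 1) (Fin 1) ℂ)) ⊗ₖ (A2 - D2) := by
    ext ⟨i, k⟩ ⟨j, l⟩
    simp only [Matrix.sub_apply, kroneckerMap_apply]
    ring
  rw [← kronecker_add, e1, trF_nl_kron hu h.add, trF_nl_kron hu h.sub, trF_nl_kron hu h.psd,
    smul_add, smul_sub]

theorem PP.smul {n : Type*} [Fintype n] [DecidableEq n] {A D : Matrix n n ℂ} (h : PP A D)
    {u : ℝ} (hu : 0 ≤ u) : PP (u • A) (u • D) :=
  ⟨by rw [← smul_add]; exact h.add.smul hu, by rw [← smul_sub]; exact h.sub.smul hu⟩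

theorem DiagDom.expDom {A2 D2 : Matrix m m ℂ} (h2 : PP A2 D2) (h : DiagDom A2 D2) :
    ExpDom A2 D2 := by
  obtain ⟨μ, hs, hadm, hle, heq⟩ := h
  refine ⟨μ, hs, hadm, ?_, ?_⟩
  · intro n _ _ A D hAD u hu
    have h1 := hle (hAD.smul hu.le)
    rw [smul_kronecker, smul_kronecker] at h1
    refine le_trans (le_of_eq (lintegral_congr fun p => ?_)) h1
    rw [smul_smul, smul_smul, mul_comm u, mul_comm u]
  · intro u hu
    have h1 := heq (n := Fin 1) (fun _ => u) (fun _ => u) (fun _ => by rw [abs_of_pos hu])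
    rw [dg_const, sd_nl_kron hu.le h2] at h1
    refine Eq.trans (lintegral_congr fun p => ?_) h1
    rw [smul_smul, smul_smul, mul_comm u, mul_comm u]

/-- a finite family of sheets whose logarithmic sides add up gives exponential domination -/
theorem DiagDom.of_sheets {A2 D2 : Matrix m m ℂ} {I : Type} [Fintype I] (s : I → Sheet)
    (hid : ∀ {n : Type} [Fintype n] [DecidableEq n] {A D : Matrix n n ℂ}, PP A D →
      sd nl (A ⊗ₖ A2) (D ⊗ₖ D2) = ∑ i, (s i).L A D / 2) : DiagDom A2 D2 := by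
  have hL : ∀ {n : Type} [Fintype n] [DecidableEq n] {A D : Matrix n n ℂ}, PP A D → ∀ i,
      0 ≤ (s i).L A D / 2 := fun h i => by
    have := (s i).L_nonneg h
    positivity
  refine ⟨Measure.sum fun i => (s i).dm, inferInstance, ?_, ?_, ?_⟩
  · rw [Measure.ae_sum_iff]
    exact fun i => (s i).ae_dm
  · intro n _ _ A D h
    rw [lintegral_sum_measure, tsum_fintype, hid h, ENNReal.ofReal_sum_of_nonneg fun i _ => hL h i]
    exact Finset.sum_le_sum fun i _ => (s i).dm_le h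
  · intro n _ _ a d had
    have h : PP (Lieb.dg a : Matrix n n ℂ) (Lieb.dg d) := PP.dg had
    rw [lintegral_sum_measure, tsum_fintype, hid h, ENNReal.ofReal_sum_of_nonneg fun i _ => hL h i]
    refine Finset.sum_congr rfl fun i _ => ?_
    have hU : (1 : Matrix n n ℂ)ᴴ * 1 = 1 := by simp
    exact (s i).dm_eq hU had h (by simp) (by simp)

/-! ### one star -/

/-- **Exponential domination for `S = lam R + e v v*`, `R > 0`.** -/
theorem DiagDom.rank_one {R S : Matrix m m ℂ} (hR : R.PosDef) (hS : S.PosSemidef) {lam e : ℝ}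
    (hl : 0 ≤ lam) {v : m → ℂ} (hv : star v ⬝ᵥ v = 1)
    (hE : S = lam • R + e • vecMulVec v (star v)) : DiagDom (R + S) (S - R) := by
  obtain ⟨J, a, γ, al, ha, hγ, hal, hcone, hdet⟩ := Pool.Agent.LDK.exists_det_star R hR v hv
  have hco : 0 ≤ e + lam * al := by
    have := hcone lam e (hE ▸ hS)
    linarith
  let s : Sheet :=
    { J := J
      β := 1 + ∑ j, γ j
      α₀ := al
      lam := lam
      e := e
      γ := γ
      a := a
      α₀_nonneg := hal.le
      lam_nonneg := hl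
      cone := hco
      γ_nonneg := hγ
      a_nonneg := fun j => (ha j).le
      pos := by linarith }
  have hpsi : s.psi = Pool.Agent.LDK.starF al a γ 1 := by
    funext x
    simp only [Sheet.psi, Pool.Agent.LDK.starF, s, one_pow, one_mul, mul_one_div]
  -- the logarithm for positive pairs
  have key : ∀ {n : Type} [Fintype n] [DecidableEq n] {P K : Matrix n n ℂ}, P.PosSemidef →
      K.PosSemidef → Ld (1 + (P ⊗ₖ R + K ⊗ₖ S)) =
        ∑ j, Ld ((leaf (a j) lam (ha j).le hl).H P K) + Ld (s.H P K) := by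
    intro n _ _ P K hP hK
    have hB : (P + lam • K).PosSemidef := hP.add (hK.smul hl)
    have hpos : (1 + (P ⊗ₖ R + K ⊗ₖ S) : Matrix (n × m) (n × m) ℂ).PosDef :=
      PosDef.one.add_posSemidef ((hP.kronecker hR.posSemidef).add (hK.kronecker hS))
    have e1 : (1 + (P ⊗ₖ R + K ⊗ₖ S) : Matrix (n × m) (n × m) ℂ) =
        (1 : ℝ) • (1 : Matrix (n × m) (n × m) ℂ) + (P + lam • K) ⊗ₖ R +
          K ⊗ₖ (e • vecMulVec v (star v)) := by
      rw [one_smul, hE, kronecker_add, add_kronecker, kronecker_smul, smul_kronecker]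
      abel
    have h := (hdet (P + lam • K) K 1 e hB one_pos).2 (e1 ▸ hpos)
    rw [← e1] at h
    rw [Ld_eq_ldet hpos, h.2]
    congr 1
    · refine Finset.sum_congr rfl fun j _ => ?_
      rw [Ld_eq_ldet (Sheet.H_posDef _ hP hK), leaf_H _ _ hP.1 hK.1, one_smul]
    · rw [Ld_eq_ldet (s.H_posDef hP hK)]
      unfold Sheet.H
      rw [hpsi]
  refine DiagDom.of_sheets (I := Option (Fin J))
    (fun o => o.elim s fun j => leaf (a j) lam (ha j).le hl) ?_
  intro n _ _ A D h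
  have e1 : A ⊗ₖ (R + S) + D ⊗ₖ (S - R) = (A - D) ⊗ₖ R + (A + D) ⊗ₖ S := by
    ext ⟨i, k⟩ ⟨j, l⟩
    simp only [Matrix.add_apply, Matrix.sub_apply, kroneckerMap_apply]
    ring
  have e2 : A ⊗ₖ (R + S) - D ⊗ₖ (S - R) = (A + D) ⊗ₖ R + (A - D) ⊗ₖ S := by
    ext ⟨i, k⟩ ⟨j, l⟩
    simp only [Matrix.add_apply, Matrix.sub_apply, kroneckerMap_apply]
    ring
  have e3 : A ⊗ₖ (R + S) = A ⊗ₖ R + A ⊗ₖ S := kronecker_add _ _ _
  have hp : ∀ {P K : Matrix n n ℂ}, P.PosSemidef → K.PosSemidef →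
      (P ⊗ₖ R + K ⊗ₖ S).PosSemidef := fun hP hK =>
    (hP.kronecker hR.posSemidef).add (hK.kronecker hS)
  unfold sd
  rw [e1, e2, e3, trF_nl (hp h.sub h.add), trF_nl (hp h.add h.sub), trF_nl (hp h.psd h.psd),
    key h.sub h.add, key h.add h.sub, key h.psd h.psd, Fintype.sum_option]
  simp only [Option.elim_none, Option.elim_some, Sheet.L]
  rw [← Finset.sum_div, ← Finset.mul_sum, Finset.sum_sub_distrib, Finset.sum_sub_distrib,
    ← Finset.sum_div, ← Finset.sum_div]
  ring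

/-- **Exponential domination for `S = lam R + e v v*`, `R > 0`.** -/
theorem ExpDom.rank_one {R S : Matrix m m ℂ} (hR : R.PosDef) (hS : S.PosSemidef) {lam e : ℝ}
    (hl : 0 ≤ lam) {v : m → ℂ} (hv : star v ⬝ᵥ v = 1)
    (hE : S = lam • R + e • vecMulVec v (star v)) : ExpDom (R + S) (S - R) := by
  refine DiagDom.expDom ⟨?_, ?_⟩ (DiagDom.rank_one hR hS hl hv hE)
  · have e1 : R + S + (S - R) = (2 : ℝ) • S := by module
    rw [e1]
    exact hS.smul two_pos.le
  · have e1 : R + S - (S - R) = (2 : ℝ) • R := by module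
    rw [e1]
    exact hR.posSemidef.smul two_pos.le

end

end Pool.Agent.Lib_helper59.RCT
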