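import Mathlib
import Pool.Agent.Lib_helper59.RCT.ExpDom

/-!
# The inequality for a general sheet
-/

set_option autoImplicit false
set_option linter.unusedSectionVars false
set_option linter.unusedSimpArgs false

open scoped ENNReal ComplexOrder Kronecker

namespace Pool.Agent.Lib_helper59.RCT

open Matrix MeasureTheory Set Filter
open Pool.Agent.Lib_helper98.Renyi Pool.Agent.Lib_helper59.Lieb

/-- A general sheet: `∫ om τ t exp(-(q τ t) x) dμ(t) = exp(-τ psi x)`. -/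
structure ASheet (T : Type) [MeasurableSpace T] where
  mu : Measure T
  sf : SFinite mu
  psi : ℝ → ℝ
  om : ℝ → T → ℝ≥0∞
  q : ℝ → T → ℝ
  α₀ : ℝ
  lam : ℝ
  e : ℝ
  c : ℝ
  α₀_nonneg : 0 ≤ α₀
  lam_nonneg : 0 ≤ lam
  cone : 0 ≤ e + lam * α₀
  c_pos : 0 < c
  psi_ge : ∀ x, 0 ≤ x → c + α₀ * x ≤ psi x
  q_ge : ∀ τ t, 0 ≤ τ → τ * α₀ ≤ q τ t
  meas_om : Measurable fun p : ℝ × T => om p.1 p.2
  meas_q : Measurable fun p : ℝ × T => q p.1 p.2
  lap : ∀ τ x, 0 ≤ τ → 0 ≤ x →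
    ∫⁻ t, om τ t * ENNReal.ofReal (Real.exp (-(q τ t * x))) ∂mu =
      ENNReal.ofReal (Real.exp (-(τ * psi x)))

namespace ASheet

variable {T : Type} [MeasurableSpace T] (s : ASheet T)

instance : SFinite s.mu := s.sf

/-- coefficient of `K` -/
noncomputable def v (τ : ℝ) (t : T) : ℝ := τ * s.e + s.q τ t * s.lam

/-- the direction: coefficient of `A` -/
noncomputable def x (τ : ℝ) (t : T) : ℝ := s.q τ t + s.v τ t

/-- the direction: coefficient of `D` -/
noncomputable def y (τ : ℝ) (t : T) : ℝ := s.v τ t - s.q τ t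

theorem q_nonneg {τ : ℝ} (hτ : 0 ≤ τ) (t : T) : 0 ≤ s.q τ t :=
  (mul_nonneg hτ s.α₀_nonneg).trans (s.q_ge τ t hτ)

theorem v_nonneg {τ : ℝ} (hτ : 0 ≤ τ) (t : T) : 0 ≤ s.v τ t := by
  unfold v
  have h2 := mul_nonneg hτ s.cone
  have h3 := mul_le_mul_of_nonneg_right (s.q_ge τ t hτ) s.lam_nonneg
  nlinarith

theorem abs_y_le {τ : ℝ} (hτ : 0 ≤ τ) (t : T) : |s.y τ t| ≤ s.x τ t := by
  have h1 := s.q_nonneg hτ t
  have h2 := s.v_nonneg hτ t
  unfold x y
  rw [abs_le]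
  constructor <;> linarith

theorem measurable_v : Measurable fun p : ℝ × T => s.v p.1 p.2 := by
  unfold v
  exact (measurable_fst.mul_const _).add (s.meas_q.mul_const _)

theorem measurable_x : Measurable fun p : ℝ × T => s.x p.1 p.2 :=
  s.meas_q.add s.measurable_v

theorem measurable_y : Measurable fun p : ℝ × T => s.y p.1 p.2 :=
  s.measurable_v.sub s.meas_q

theorem measurable_pair (τ : ℝ) : Measurable fun t : T => ((τ, t) : ℝ × T) :=
  measurable_const.prodMk measurable_id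

theorem measurable_om_fix (τ : ℝ) : Measurable fun t : T => s.om τ t :=
  Measurable.comp (g := fun p : ℝ × T => s.om p.1 p.2) (f := fun t : T => ((τ, t) : ℝ × T))
    s.meas_om (measurable_pair τ)

theorem measurable_q_fix (τ : ℝ) : Measurable fun t : T => s.q τ t :=
  Measurable.comp (g := fun p : ℝ × T => s.q p.1 p.2) (f := fun t : T => ((τ, t) : ℝ × T))
    s.meas_q (measurable_pair τ)

theorem measurable_v_fix (τ : ℝ) : Measurable fun t : T => s.v τ t :=
  Measurable.comp (g := fun p : ℝ × T => s.v p.1 p.2) (f := fun t : T => ((τ, t) : ℝ × T))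
    s.measurable_v (measurable_pair τ)

section

variable {n : Type*} [Fintype n] [DecidableEq n]

/-- **KEY.** `∫ ω Tr exp(Q - q B) ≤ Tr exp(Q - τ psi(B))`. -/
theorem key {τ : ℝ} (hτ : 0 ≤ τ) {Q B : Matrix n n ℂ} (hQ : Q.IsHermitian)
    (hB : B.PosSemidef) :
    ∫⁻ t, s.om τ t * ENNReal.ofReal (rtr (cfc Real.exp (Q - s.q τ t • B))) ∂s.mu ≤
      ENNReal.ofReal (rtr (cfc Real.exp (Q - τ • cfc s.psi B))) := by
  have h := lieb_lap s.mu hQ hB.1 (s.measurable_om_fix τ) (s.measurable_q_fix τ)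
    (g := fun x => Real.exp (-(τ * s.psi x)))
    (fun x _ => Real.exp_pos _)
    (fun x hx => s.lap τ x hτ (spectrum_nonneg_of_psd hB hx))
  refine h.trans (le_of_eq ?_)
  congr 3
  rw [sub_eq_add_neg]
  congr 1
  obtain ⟨V, ν, hV, hV', hNe, hν⟩ := exists_spectral_mem hB.1
  rw [hNe, dg, cfc_conj_diagonal _ V hV, cfc_conj_diagonal _ V hV, ← neg_smul,
    ← Matrix.smul_mul, ← Matrix.mul_smul, ← diagonal_smul]
  congr 3
  funext i
  simp

/-- the operator `psi (P + lam K) + e K` -/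
noncomputable def H (P K : Matrix n n ℂ) : Matrix n n ℂ :=
  cfc s.psi (P + s.lam • K) + s.e • K

theorem psd_comb {P K : Matrix n n ℂ} (hP : P.PosSemidef) (hK : K.PosSemidef) :
    (P + s.lam • K).PosSemidef := hP.add (hK.smul s.lam_nonneg)

theorem H_posDef {P K : Matrix n n ℂ} (hP : P.PosSemidef) (hK : K.PosSemidef) :
    (s.H P K).PosDef := by
  have hB := s.psd_comb hP hK
  obtain ⟨V, ν, hV, hV', hν, hBe⟩ := exists_spectral_nonneg hB
  have h1 : (cfc s.psi (P + s.lam • K) - (s.c • (1 : Matrix n n ℂ) +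
      s.α₀ • (P + s.lam • K))).PosSemidef := by
    have e1 : s.c • (1 : Matrix n n ℂ) = V * dg (fun _ => s.c) * Vᴴ := by
      rw [dg_const, Matrix.mul_smul, Matrix.mul_one, Matrix.smul_mul, hV']
    have e2 : cfc s.psi (P + s.lam • K) - (s.c • (1 : Matrix n n ℂ) +
        s.α₀ • (P + s.lam • K)) =
        V * dg (fun i => s.psi (ν i) - (s.c + s.α₀ * ν i)) * Vᴴ := by
      rw [e1, hBe]
      change cfc s.psi (V * dg ν * Vᴴ) - (V * dg (fun _ => s.c) * Vᴴ +
        s.α₀ • (V * dg ν * Vᴴ)) = _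
      rw [smul_conj_dg, dg, dg, cfc_conj_diagonal _ V hV, ← Matrix.add_mul, ← Matrix.mul_add,
        ← Matrix.sub_mul, ← Matrix.mul_sub]
      congr 2
      rw [dg, dg, diagonal_add, diagonal_sub]
      congr 1
      funext i
      push_cast
      rfl
    rw [e2]
    have h2 : (dg fun i => s.psi (ν i) - (s.c + s.α₀ * ν i) : Matrix n n ℂ).PosSemidef := by
      refine PosSemidef.diagonal fun i => ?_
      have := s.psi_ge _ (hν i)
      have h3 : 0 ≤ s.psi (ν i) - (s.c + s.α₀ * ν i) := by linarith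
      have h4 : (0 : ℂ) ≤ ((s.psi (ν i) - (s.c + s.α₀ * ν i) : ℝ) : ℂ) := by
        exact_mod_cast h3
      exact h4
    exact h2.mul_mul_conjTranspose_same V
  have h3 : (s.c • (1 : Matrix n n ℂ)).PosDef := PosDef.one.smul s.c_pos
  have h4 : (s.α₀ • P + (s.e + s.lam * s.α₀) • K).PosSemidef :=
    (hP.smul s.α₀_nonneg).add (hK.smul s.cone)
  have e3 : s.H P K = (cfc s.psi (P + s.lam • K) - (s.c • (1 : Matrix n n ℂ) +
      s.α₀ • (P + s.lam • K))) + (s.c • (1 : Matrix n n ℂ) +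
      (s.α₀ • P + (s.e + s.lam * s.α₀) • K)) := by
    unfold H
    module
  rw [e3]
  exact (h3.add_posSemidef h4).posSemidef_add h1

theorem key_PK {τ : ℝ} (hτ : 0 ≤ τ) {P K : Matrix n n ℂ} (hP : P.PosSemidef)
    (hK : K.PosSemidef) :
    ∫⁻ t, s.om τ t * ENNReal.ofReal (E P K (s.q τ t, s.v τ t)) ∂s.mu ≤
      ENNReal.ofReal (rtr (cfc Real.exp (-(τ • s.H P K)))) := by
  have hQ : (-((τ * s.e) • K)).IsHermitian := by
    refine IsHermitian.neg ?_
    rw [Matrix.IsHermitian, conjTranspose_smul, hK.1.eq]; simp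
  have h := s.key hτ hQ (s.psd_comb hP hK)
  have e1 : -((τ * s.e) • K) - τ • cfc s.psi (P + s.lam • K) = -(τ • s.H P K) := by
    unfold H
    module
  rw [e1] at h
  refine le_trans (le_of_eq ?_) h
  refine lintegral_congr fun t => ?_
  congr 3
  unfold E v
  congr 2
  simp only
  module

/-- exactness for simultaneously diagonal matrices -/
theorem exact_dg {τ : ℝ} (hτ : 0 ≤ τ) {U : Matrix n n ℂ} (hU : Uᴴ * U = 1) {p k : n → ℝ}
    (hp : ∀ i, 0 ≤ p i) (hk : ∀ i, 0 ≤ k i) :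
    ∫⁻ t, s.om τ t * ENNReal.ofReal
      (E (U * dg p * Uᴴ) (U * dg k * Uᴴ) (s.q τ t, s.v τ t)) ∂s.mu =
      ENNReal.ofReal (rtr (cfc Real.exp (-(τ • s.H (U * dg p * Uᴴ) (U * dg k * Uᴴ))))) := by
  have hadd : ∀ c d : n → ℝ, U * dg c * Uᴴ + U * dg d * Uᴴ = U * dg (fun i => c i + d i) * Uᴴ := by
    intro c d
    rw [← Matrix.add_mul, ← Matrix.mul_add, dg, dg, diagonal_add]
    congr 3
    funext i
    push_cast
    rfl
  have hH : s.H (U * dg p * Uᴴ) (U * dg k * Uᴴ) =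
      U * dg (fun i => s.psi (p i + s.lam * k i) + s.e * k i) * Uᴴ := by
    unfold H
    rw [smul_conj_dg, smul_conj_dg, hadd, dg, cfc_conj_diagonal _ U hU]
    exact hadd _ _
  have hE : ∀ t, E (U * dg p * Uᴴ) (U * dg k * Uᴴ) (s.q τ t, s.v τ t) =
      ∑ i, Real.exp (-(τ * s.e * k i)) * Real.exp (-(s.q τ t * (p i + s.lam * k i))) := by
    intro t
    unfold E
    simp only
    have e1 : -(s.q τ t • (U * dg p * Uᴴ) + s.v τ t • (U * dg k * Uᴴ)) =
        U * dg (fun i => -(s.q τ t * p i + s.v τ t * k i)) * Uᴴ := by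
      rw [smul_conj_dg, smul_conj_dg, hadd]
      have := neg_smul_conj_dg U 1 (fun i => s.q τ t * p i + s.v τ t * k i)
      rw [one_smul] at this
      simp only [one_mul] at this
      exact this
    rw [e1, rtr_cfc_dg hU]
    refine Finset.sum_congr rfl fun i _ => ?_
    rw [← Real.exp_add]
    congr 1
    unfold v
    ring
  have hm1 : Measurable fun t : T => s.om τ t := s.measurable_om_fix τ
  have hm2 : Measurable fun t : T => s.q τ t := s.measurable_q_fix τ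
  have hm : ∀ i, Measurable fun t : T =>
      s.om τ t * ENNReal.ofReal (Real.exp (-(s.q τ t * (p i + s.lam * k i)))) := fun i =>
    hm1.mul (ENNReal.measurable_ofReal.comp (by fun_prop))
  calc ∫⁻ t, s.om τ t * ENNReal.ofReal
        (E (U * dg p * Uᴴ) (U * dg k * Uᴴ) (s.q τ t, s.v τ t)) ∂s.mu
      = ∫⁻ t, ∑ i, ENNReal.ofReal (Real.exp (-(τ * s.e * k i))) *
          (s.om τ t * ENNReal.ofReal (Real.exp (-(s.q τ t * (p i + s.lam * k i))))) ∂s.mu := by
        refine lintegral_congr fun t => ?_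
        rw [hE, ENNReal.ofReal_sum_of_nonneg fun i _ => by positivity, Finset.mul_sum]
        refine Finset.sum_congr rfl fun i _ => ?_
        rw [ENNReal.ofReal_mul (Real.exp_pos _).le]
        ring
    _ = ∑ i, ENNReal.ofReal (Real.exp (-(τ * s.e * k i))) *
          ENNReal.ofReal (Real.exp (-(τ * s.psi (p i + s.lam * k i)))) := by
        rw [lintegral_finsetSum _ fun i _ => (hm i).const_mul _]
        refine Finset.sum_congr rfl fun i _ => ?_
        rw [lintegral_const_mul _ (hm i), s.lap τ _ hτ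
          (add_nonneg (hp i) (mul_nonneg s.lam_nonneg (hk i)))]
    _ = _ := by
        rw [hH, neg_smul_conj_dg, rtr_cfc_dg hU, ENNReal.ofReal_sum_of_nonneg fun i _ =>
          (Real.exp_pos _).le]
        refine Finset.sum_congr rfl fun i _ => ?_
        rw [← ENNReal.ofReal_mul (Real.exp_pos _).le, ← Real.exp_add]
        congr 2
        ring

theorem sd_dir {A D : Matrix n n ℂ} (hA : A.IsHermitian) (hD : D.IsHermitian) (τ : ℝ)
    (t : T) :
    sd en (s.x τ t • A) (s.y τ t • D) =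
      (E (A - D) (A + D) (s.q τ t, s.v τ t) + E (A + D) (A - D) (s.q τ t, s.v τ t)) / 2 -
        E A A (s.q τ t, s.v τ t) := by
  unfold sd
  rw [trF_exp_neg ((herm_smul hA _).add (herm_smul hD _)),
    trF_exp_neg ((herm_smul hA _).sub (herm_smul hD _)), trF_exp_neg (herm_smul hA _)]
  unfold E x y
  have e1 : -((s.q τ t + s.v τ t) • A + (s.v τ t - s.q τ t) • D) =
      -(s.q τ t • (A - D) + s.v τ t • (A + D)) := by module
  have e2 : -((s.q τ t + s.v τ t) • A - (s.v τ t - s.q τ t) • D) =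
      -(s.q τ t • (A + D) + s.v τ t • (A - D)) := by module
  have e3 : -((s.q τ t + s.v τ t) • A) = -(s.q τ t • A + s.v τ t • A) := by module
  rw [e1, e2, e3]

theorem measurable_E_fix {P K : Matrix n n ℂ} (hP : P.IsHermitian) (hK : K.IsHermitian)
    (τ : ℝ) : Measurable fun t : T => E P K (s.q τ t, s.v τ t) := by
  have h3 : Measurable fun t : T => ((s.q τ t, s.v τ t) : ℝ × ℝ) :=
    (s.measurable_q_fix τ).prodMk (s.measurable_v_fix τ)
  exact Measurable.comp (g := E P K) (f := fun t : T => ((s.q τ t, s.v τ t) : ℝ × ℝ))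
    (continuous_E hP hK).measurable h3

theorem exact_AA {τ : ℝ} (hτ : 0 ≤ τ) {A : Matrix n n ℂ} (hA : A.PosSemidef) :
    ∫⁻ t, s.om τ t * ENNReal.ofReal (E A A (s.q τ t, s.v τ t)) ∂s.mu =
      ENNReal.ofReal (rtr (cfc Real.exp (-(τ • s.H A A)))) := by
  obtain ⟨U, a, hU, hU', ha, rfl⟩ := exists_spectral_nonneg hA
  exact s.exact_dg hτ hU ha ha

/-- the integral of the second difference, for fixed `τ` -/
theorem lintegral_sd_add {τ : ℝ} (hτ : 0 ≤ τ) {A D : Matrix n n ℂ} (h : PP A D) :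
    ∫⁻ t, s.om τ t * ENNReal.ofReal (2 * sd en (s.x τ t • A) (s.y τ t • D)) ∂s.mu +
      2 * ENNReal.ofReal (rtr (cfc Real.exp (-(τ • s.H A A)))) =
    (∫⁻ t, s.om τ t * ENNReal.ofReal (E (A - D) (A + D) (s.q τ t, s.v τ t)) ∂s.mu) +
    (∫⁻ t, s.om τ t * ENNReal.ofReal (E (A + D) (A - D) (s.q τ t, s.v τ t)) ∂s.mu) := by
  rw [← s.exact_AA hτ h.psd]
  exact comb_aux s.mu (s.measurable_om_fix τ) (s.measurable_E_fix h.sub.1 h.add.1 τ)
    (s.measurable_E_fix h.psd.1 h.psd.1 τ)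
    (fun t => E_nonneg h.sub.1 h.add.1 _) (fun t => E_nonneg h.add.1 h.sub.1 _)
    (fun t => E_nonneg h.psd.1 h.psd.1 _)
    (fun t => sd_nonneg convexOn_exp_neg (Sheet.PP.dir h (s.abs_y_le hτ t)))
    (fun t => s.sd_dir h.psd.1 h.herm τ t)

/-- the sheet functional: `∫ dτ/τ ∫ ω_τ(dt) 2 sd exp(-·) (x A, y D)` -/
noncomputable def W (A D : Matrix n n ℂ) : ℝ≥0∞ :=
  ∫⁻ τ in Ioi (0 : ℝ), ENNReal.ofReal τ⁻¹ *
    ∫⁻ t, s.om τ t * ENNReal.ofReal (2 * sd en (s.x τ t • A) (s.y τ t • D)) ∂s.mu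

/-- the logarithmic side -/
noncomputable def L (A D : Matrix n n ℂ) : ℝ :=
  2 * (Ld (s.H A A) - Ld (s.H (A - D) (A + D)) / 2 - Ld (s.H (A + D) (A - D)) / 2)

theorem L_lintegral {A D : Matrix n n ℂ} (h : PP A D)
    (hpos : ∀ τ ∈ Ioi (0 : ℝ), 0 ≤ rtr (cfc Real.exp (-(τ • s.H (A - D) (A + D)))) / 2 +
      rtr (cfc Real.exp (-(τ • s.H (A + D) (A - D)))) / 2 -
        rtr (cfc Real.exp (-(τ • s.H A A)))) :
    ENNReal.ofReal (s.L A D) = ∫⁻ τ in Ioi (0 : ℝ), ENNReal.ofReal τ⁻¹ *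
      ENNReal.ofReal (2 * (rtr (cfc Real.exp (-(τ • s.H (A - D) (A + D)))) / 2 +
      rtr (cfc Real.exp (-(τ • s.H (A + D) (A - D)))) / 2 -
        rtr (cfc Real.exp (-(τ • s.H A A))))) := by
  obtain ⟨i1, e1⟩ := fru_comb (s.H_posDef h.sub h.add) (s.H_posDef h.add h.sub)
    (s.H_posDef h.psd h.psd)
  have e2 : ∫⁻ τ in Ioi (0 : ℝ), ENNReal.ofReal τ⁻¹ *
      ENNReal.ofReal (2 * (rtr (cfc Real.exp (-(τ • s.H (A - D) (A + D)))) / 2 +
      rtr (cfc Real.exp (-(τ • s.H (A + D) (A - D)))) / 2 -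
        rtr (cfc Real.exp (-(τ • s.H A A))))) = ∫⁻ τ in Ioi (0 : ℝ), ENNReal.ofReal (2 *
      (τ⁻¹ * (rtr (cfc Real.exp (-(τ • s.H (A - D) (A + D)))) / 2 +
      rtr (cfc Real.exp (-(τ • s.H (A + D) (A - D)))) / 2 -
        rtr (cfc Real.exp (-(τ • s.H A A)))))) := by
    refine setLIntegral_congr_fun measurableSet_Ioi fun τ hτ => ?_
    have hτ0 : (0 : ℝ) < τ := hτ
    rw [← ENNReal.ofReal_mul (inv_nonneg.2 hτ0.le)]
    congr 1
    ring
  rw [e2, ← ofReal_integral_eq_lintegral_ofReal (i1.const_mul 2), integral_const_mul, e1]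
  · rfl
  · rw [EventuallyLE, ae_restrict_iff' measurableSet_Ioi]
    refine Eventually.of_forall fun τ hτ => ?_
    have hτ0 : (0 : ℝ) < τ := hτ
    have := hpos τ hτ
    simp only [Pi.zero_apply]
    positivity

theorem rtr_expH_nonneg {P K : Matrix n n ℂ} (hP : P.PosSemidef) (hK : K.PosSemidef) (τ : ℝ) :
    0 ≤ rtr (cfc Real.exp (-(τ • s.H P K))) := by
  refine rtr_exp_nonneg (IsHermitian.neg ?_)
  rw [Matrix.IsHermitian, conjTranspose_smul, (s.H_posDef hP hK).1.eq]; simp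

theorem step_le {A D : Matrix n n ℂ} (h : PP A D) {τ : ℝ} (hτ : 0 ≤ τ) :
    ∫⁻ t, s.om τ t * ENNReal.ofReal (2 * sd en (s.x τ t • A) (s.y τ t • D)) ∂s.mu ≤
      ENNReal.ofReal (2 * (rtr (cfc Real.exp (-(τ • s.H (A - D) (A + D)))) / 2 +
      rtr (cfc Real.exp (-(τ • s.H (A + D) (A - D)))) / 2 -
        rtr (cfc Real.exp (-(τ • s.H A A))))) ∧
    0 ≤ rtr (cfc Real.exp (-(τ • s.H (A - D) (A + D)))) / 2 +
      rtr (cfc Real.exp (-(τ • s.H (A + D) (A - D)))) / 2 -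
        rtr (cfc Real.exp (-(τ • s.H A A))) := by
  refine Sheet.ennr_sub (s.rtr_expH_nonneg h.psd h.psd τ) (s.rtr_expH_nonneg h.sub h.add τ)
    (s.rtr_expH_nonneg h.add h.sub τ) ?_
  rw [s.lintegral_sd_add hτ h]
  exact add_le_add (s.key_PK hτ h.sub h.add) (s.key_PK hτ h.add h.sub)

/-- **The sheet inequality.** -/
theorem W_le {A D : Matrix n n ℂ} (h : PP A D) : s.W A D ≤ ENNReal.ofReal (s.L A D) := by
  rw [s.L_lintegral h fun τ hτ => (s.step_le h (le_of_lt hτ)).2]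
  refine setLIntegral_mono' measurableSet_Ioi fun τ hτ => ?_
  gcongr
  exact (s.step_le h (le_of_lt hτ)).1

theorem L_nonneg {A D : Matrix n n ℂ} (h : PP A D) : 0 ≤ s.L A D := by
  obtain ⟨i1, e1⟩ := fru_comb (s.H_posDef h.sub h.add) (s.H_posDef h.add h.sub)
    (s.H_posDef h.psd h.psd)
  unfold L
  rw [← e1]
  refine mul_nonneg two_pos.le (setIntegral_nonneg measurableSet_Ioi fun τ hτ => ?_)
  exact mul_nonneg (inv_nonneg.2 (le_of_lt hτ)) (s.step_le h (le_of_lt hτ)).2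

theorem step_eq {a d : n → ℝ} (had : ∀ i, |d i| ≤ a i) {τ : ℝ} (hτ : 0 ≤ τ) :
    ∫⁻ t, s.om τ t * ENNReal.ofReal (2 * sd en (s.x τ t • (dg a : Matrix n n ℂ))
      (s.y τ t • dg d)) ∂s.mu =
      ENNReal.ofReal (2 * (rtr (cfc Real.exp (-(τ • s.H (dg a - dg d) (dg a + dg d)))) / 2 +
      rtr (cfc Real.exp (-(τ • s.H (dg a + dg d) (dg a - dg d)))) / 2 -
        rtr (cfc Real.exp (-(τ • s.H (dg a : Matrix n n ℂ) (dg a)))))) := by
  have hU : (1 : Matrix n n ℂ)ᴴ * 1 = 1 := by simp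
  have hadd : (dg a : Matrix n n ℂ) + dg d = 1 * dg (fun i => a i + d i) * 1ᴴ := by
    rw [conjTranspose_one, Matrix.one_mul, Matrix.mul_one, dg, dg, dg, diagonal_add]
    congr 1
    funext i
    push_cast
    rfl
  have hsub : (dg a : Matrix n n ℂ) - dg d = 1 * dg (fun i => a i - d i) * 1ᴴ := by
    rw [conjTranspose_one, Matrix.one_mul, Matrix.mul_one, dg, dg, dg, diagonal_sub]
    congr 1
    funext i
    push_cast
    rfl
  have h1 : ∀ i, 0 ≤ a i + d i := fun i => by have := (abs_le.1 (had i)).1; linarith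
  have h2 : ∀ i, 0 ≤ a i - d i := fun i => by have := (abs_le.1 (had i)).2; linarith
  have h : PP (dg a : Matrix n n ℂ) (dg d) := PP.dg had
  refine (Sheet.ennr_sub_eq (s.rtr_expH_nonneg h.psd h.psd τ) (s.rtr_expH_nonneg h.sub h.add τ)
    (s.rtr_expH_nonneg h.add h.sub τ) ?_).1
  rw [s.lintegral_sd_add hτ h, hadd, hsub, s.exact_dg hτ hU h2 h1, s.exact_dg hτ hU h1 h2]

/-- **Equality for diagonal pairs.** -/
theorem W_eq {a d : n → ℝ} (had : ∀ i, |d i| ≤ a i) :
    s.W (dg a : Matrix n n ℂ) (dg d) = ENNReal.ofReal (s.L (dg a : Matrix n n ℂ) (dg d)) := by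
  rw [s.L_lintegral (PP.dg had) fun τ hτ => (s.step_le (PP.dg had) (le_of_lt hτ)).2]
  refine setLIntegral_congr_fun measurableSet_Ioi fun τ hτ => ?_
  rw [s.step_eq had (le_of_lt hτ)]

end

/-! ### the measure of directions -/

/-- reference measure on `(τ, t)` -/
noncomputable def base : Measure (ℝ × T) := (volume.restrict (Ioi (0 : ℝ))).prod s.mu

/-- the directions -/
noncomputable def xy (p : ℝ × T) : ℝ × ℝ := (s.x p.1 p.2, s.y p.1 p.2)

theorem measurable_xy : Measurable s.xy := s.measurable_x.prodMk s.measurable_y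

/-- the density -/
noncomputable def dens (p : ℝ × T) : ℝ≥0∞ := ENNReal.ofReal (p.1⁻¹) * s.om p.1 p.2

theorem measurable_dens : Measurable s.dens := by
  unfold dens
  exact (ENNReal.measurable_ofReal.comp measurable_fst.inv).mul s.meas_om

/-- the measure of the directions of a sheet -/
noncomputable def dm : Measure (ℝ × ℝ) := (s.base.withDensity s.dens).map s.xy

instance : SFinite s.dm := by
  unfold dm base
  infer_instance

theorem ae_dm : ∀ᵐ p ∂s.dm, |p.2| ≤ p.1 := by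
  unfold dm
  rw [ae_map_iff s.measurable_xy.aemeasurable
    (measurableSet_le measurable_snd.abs measurable_fst)]
  have h1 : ∀ᵐ p ∂s.base, p.1 ∈ Ioi (0 : ℝ) := by
    have h2 : ∀ᵐ τ ∂(volume.restrict (Ioi (0 : ℝ))), τ ∈ Ioi (0 : ℝ) :=
      ae_restrict_mem measurableSet_Ioi
    exact (Measure.quasiMeasurePreserving_fst (μ := volume.restrict (Ioi (0 : ℝ)))
      (ν := s.mu)).ae h2
  have h3 := (withDensity_absolutelyContinuous s.base s.dens).ae_le h1
  filter_upwards [h3] with p hp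
  exact s.abs_y_le (le_of_lt hp) p.2

theorem lintegral_dm {f : ℝ × ℝ → ℝ≥0∞} (hf : Measurable f) :
    ∫⁻ p, f p ∂s.dm = ∫⁻ τ in Ioi (0 : ℝ), ENNReal.ofReal τ⁻¹ *
      ∫⁻ t, s.om τ t * f (s.x τ t, s.y τ t) ∂s.mu := by
  have hfx : Measurable fun p => f (s.xy p) :=
    Measurable.comp (g := f) (f := s.xy) hf s.measurable_xy
  unfold dm
  rw [lintegral_map hf s.measurable_xy,
    lintegral_withDensity_eq_lintegral_mul _ s.measurable_dens hfx]
  unfold base
  rw [lintegral_prod _ (s.measurable_dens.mul hfx).aemeasurable]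
  refine lintegral_congr fun τ => ?_
  have hm2 : Measurable fun t : T => f (s.xy (τ, t)) :=
    Measurable.comp (g := fun p => f (s.xy p)) (f := fun t : T => ((τ, t) : ℝ × T)) hfx
      (measurable_pair τ)
  have h3 := lintegral_const_mul (μ := s.mu) (ENNReal.ofReal τ⁻¹)
    ((s.measurable_om_fix τ).mul hm2)
  refine Eq.trans (lintegral_congr fun t => ?_) h3
  simp only [Pi.mul_apply, dens, mul_assoc]

section

variable {n : Type*} [Fintype n] [DecidableEq n]

theorem W_eq_dm {A D : Matrix n n ℂ} (h : PP A D) :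
    s.W A D = 2 * ∫⁻ p, ENNReal.ofReal (sd en (p.1 • A) (p.2 • D)) ∂s.dm := by
  rw [← lintegral_const_mul _ (measurable_sd_en h.psd.1 h.herm),
    s.lintegral_dm ((measurable_sd_en h.psd.1 h.herm).const_mul 2)]
  unfold W
  refine lintegral_congr fun τ => ?_
  congr 1
  refine lintegral_congr fun t => ?_
  rw [ENNReal.ofReal_mul two_pos.le, ENNReal.ofReal_ofNat]

theorem ofReal_two (z : ℝ) : ENNReal.ofReal z = 2 * ENNReal.ofReal (z / 2) := by
  rw [← ENNReal.ofReal_ofNat, ← ENNReal.ofReal_mul (by norm_num)]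
  congr 1
  ring

theorem dm_le {A D : Matrix n n ℂ} (h : PP A D) :
    ∫⁻ p, ENNReal.ofReal (sd en (p.1 • A) (p.2 • D)) ∂s.dm ≤ ENNReal.ofReal (s.L A D / 2) := by
  have h1 := s.W_le h
  rw [s.W_eq_dm h, ofReal_two] at h1
  exact (ENNReal.mul_le_mul_iff_right (by norm_num) (by norm_num)).1 h1

theorem dm_eq {a d : n → ℝ} (had : ∀ i, |d i| ≤ a i) :
    ∫⁻ p, ENNReal.ofReal (sd en (p.1 • (dg a : Matrix n n ℂ)) (p.2 • dg d)) ∂s.dm =
      ENNReal.ofReal (s.L (dg a : Matrix n n ℂ) (dg d) / 2) := by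
  have h1 := s.W_eq had
  rw [s.W_eq_dm (PP.dg had), ofReal_two] at h1
  exact (ENNReal.mul_right_inj (by norm_num) (by norm_num)).1 h1

end

end ASheet

end Pool.Agent.Lib_helper59.RCT
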