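import Mathlib
import Pool.Agent.Lib_helper59.RCT.ASheet
import Pool.Agent.Lib_helper4.LDK.Defs

/-!
# Compound Poisson measures; `sheet_exp`
-/

set_option autoImplicit false
set_option linter.unusedSectionVars false
set_option linter.unusedSimpArgs false

open scoped ENNReal ComplexOrder Kronecker

namespace Pool.Agent.Lib_helper59.RCT

open Matrix MeasureTheory Set Filter
open Pool.Agent.Lib_helper98.Renyi Pool.Agent.Lib_helper59.Lieb

/-- `k`-fold convolution power (on absolute values) -/
noncomputable def rho (m : Measure ℝ) : ℕ → Measure ℝ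
  | 0 => Measure.dirac 0
  | k + 1 => ((rho m k).prod m).map fun p => |p.1| + |p.2|

theorem rho_fin (m : Measure ℝ) [IsFiniteMeasure m] : ∀ k, IsFiniteMeasure (rho m k)
  | 0 => by rw [rho]; infer_instance
  | k + 1 => by
      have := rho_fin m k
      rw [rho]
      infer_instance

theorem measurable_expabs (x : ℝ) :
    Measurable fun u : ℝ => ENNReal.ofReal (Real.exp (-(|u| * x))) :=
  ENNReal.measurable_ofReal.comp (by fun_prop)

theorem lintegral_rho (m : Measure ℝ) [IsFiniteMeasure m] (x : ℝ) (k : ℕ) :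
    ∫⁻ u, ENNReal.ofReal (Real.exp (-(|u| * x))) ∂(rho m k) =
      (∫⁻ u, ENNReal.ofReal (Real.exp (-(|u| * x))) ∂m) ^ k := by
  induction k with
  | zero =>
    rw [rho, lintegral_dirac' _ (measurable_expabs x), pow_zero]
    simp
  | succ k ih =>
    have := rho_fin m k
    have hm : Measurable fun p : ℝ × ℝ => |p.1| + |p.2| := by fun_prop
    rw [rho, lintegral_map (measurable_expabs x) hm]
    have e1 : ∀ p : ℝ × ℝ, ENNReal.ofReal (Real.exp (-(|(|p.1| + |p.2|)| * x))) =
        ENNReal.ofReal (Real.exp (-(|p.1| * x))) * ENNReal.ofReal (Real.exp (-(|p.2| * x))) := by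
      intro p
      rw [← ENNReal.ofReal_mul (Real.exp_pos _).le, ← Real.exp_add,
        abs_of_nonneg (by positivity : 0 ≤ |p.1| + |p.2|)]
      congr 2
      ring
    simp_rw [e1]
    rw [lintegral_prod_mul (measurable_expabs x).aemeasurable (measurable_expabs x).aemeasurable,
      ih, pow_succ]

/-- the reference measure on `ℕ × ℝ` -/
noncomputable def cpmu (m : Measure ℝ) : Measure (ℕ × ℝ) :=
  Measure.sum fun k => (rho m k).map fun u => (k, u)

theorem measurable_mk (k : ℕ) : Measurable fun u : ℝ => ((k, u) : ℕ × ℝ) :=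
  measurable_const.prodMk measurable_id

theorem cpmu_sfinite (m : Measure ℝ) [IsFiniteMeasure m] : SFinite (cpmu m) := by
  have : ∀ k, IsFiniteMeasure (rho m k) := rho_fin m
  unfold cpmu
  infer_instance

theorem lintegral_cpmu (m : Measure ℝ) {f : ℕ × ℝ → ℝ≥0∞} (hf : Measurable f) :
    ∫⁻ p, f p ∂(cpmu m) = ∑' k, ∫⁻ u, f (k, u) ∂(rho m k) := by
  unfold cpmu
  rw [lintegral_sum_measure]
  exact tsum_congr fun k => lintegral_map hf (measurable_mk k)

/-- the weight -/
noncomputable def cpom (β τ : ℝ) (p : ℕ × ℝ) : ℝ≥0∞ :=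
  ENNReal.ofReal (Real.exp (-(τ * β)) * (|τ| ^ p.1 / (p.1.factorial : ℝ)))

/-- the exponent -/
noncomputable def cpq (al τ : ℝ) (p : ℕ × ℝ) : ℝ := τ * al + |p.2|

theorem measurable_cpom (β : ℝ) : Measurable fun p : ℝ × (ℕ × ℝ) => cpom β p.1 p.2 := by
  have h : ∀ k : ℕ, Measurable fun τ : ℝ =>
      ENNReal.ofReal (Real.exp (-(τ * β)) * (|τ| ^ k / (k.factorial : ℝ))) := fun k =>
    ENNReal.measurable_ofReal.comp (by fun_prop)
  have h1 : Measurable fun p : ℝ × ℕ =>
      ENNReal.ofReal (Real.exp (-(p.1 * β)) * (|p.1| ^ p.2 / (p.2.factorial : ℝ))) :=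
    measurable_from_prod_countable_left fun k => h k
  exact h1.comp (measurable_fst.prodMk (measurable_fst.comp measurable_snd))

theorem measurable_cpq (al : ℝ) : Measurable fun p : ℝ × (ℕ × ℝ) => cpq al p.1 p.2 := by
  unfold cpq
  fun_prop

theorem cp_lap (m : Measure ℝ) [IsFiniteMeasure m] {τ x β al M : ℝ} (hτ : 0 ≤ τ)
    (hM : 0 ≤ M) (hm : ∫⁻ u, ENNReal.ofReal (Real.exp (-(|u| * x))) ∂m = ENNReal.ofReal M) :
    ∫⁻ t, cpom β τ t * ENNReal.ofReal (Real.exp (-(cpq al τ t * x))) ∂(cpmu m) =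
      ENNReal.ofReal (Real.exp (-(τ * (β + al * x - M)))) := by
  have hmeas : Measurable fun t : ℕ × ℝ =>
      cpom β τ t * ENNReal.ofReal (Real.exp (-(cpq al τ t * x))) := by
    refine Measurable.mul ?_ (ENNReal.measurable_ofReal.comp ?_)
    · exact Measurable.comp (g := fun p : ℝ × (ℕ × ℝ) => cpom β p.1 p.2)
        (f := fun t : ℕ × ℝ => ((τ, t) : ℝ × (ℕ × ℝ))) (measurable_cpom β)
        (measurable_const.prodMk measurable_id)
    · unfold cpq
      fun_prop
  rw [lintegral_cpmu m hmeas]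
  have e1 : ∀ k : ℕ, ∫⁻ u, cpom β τ (k, u) * ENNReal.ofReal (Real.exp (-(cpq al τ (k, u) * x)))
      ∂(rho m k) = ENNReal.ofReal (Real.exp (-(τ * β) - τ * al * x) *
        ((τ * M) ^ k / (k.factorial : ℝ))) := by
    intro k
    have e2 : ∀ u : ℝ, cpom β τ (k, u) * ENNReal.ofReal (Real.exp (-(cpq al τ (k, u) * x))) =
        ENNReal.ofReal (Real.exp (-(τ * β) - τ * al * x) * (τ ^ k / (k.factorial : ℝ))) *
          ENNReal.ofReal (Real.exp (-(|u| * x))) := by
      intro u
      unfold cpom cpq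
      simp only
      rw [← ENNReal.ofReal_mul (by positivity), ← ENNReal.ofReal_mul (by positivity),
        abs_of_nonneg hτ]
      congr 1
      have e3 : Real.exp (-((τ * al + |u|) * x)) =
          Real.exp (-(τ * al * x)) * Real.exp (-(|u| * x)) := by
        rw [← Real.exp_add]; congr 1; ring
      have e4 : Real.exp (-(τ * β) - τ * al * x) =
          Real.exp (-(τ * β)) * Real.exp (-(τ * al * x)) := by
        rw [← Real.exp_add]; congr 1
      rw [e3, e4]
      ring
    simp_rw [e2]
    rw [lintegral_const_mul _ (measurable_expabs x), lintegral_rho, hm,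
      ← ENNReal.ofReal_pow hM, ← ENNReal.ofReal_mul (by positivity)]
    congr 1
    rw [mul_pow]
    ring
  rw [tsum_congr e1]
  have hs := Real.summable_pow_div_factorial (τ * M)
  rw [← ENNReal.ofReal_tsum_of_nonneg (fun k => by positivity) (hs.mul_left _), tsum_mul_left]
  congr 1
  have e5 : ∑' k : ℕ, (τ * M) ^ k / (k.factorial : ℝ) = Real.exp (τ * M) := by
    rw [Real.exp_eq_exp_ℝ, NormedSpace.exp_eq_tsum_div]
  rw [e5, ← Real.exp_add]
  congr 1
  ring

/-- the abstract sheet of a Stieltjes type function -/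
theorem exists_asheet {l : ℝ} (hl : 0 ≤ l) {ψ : ℝ → ℝ} {e : ℝ}
    (h : Pool.Agent.LDK.Sheet l ψ e) :
    ∃ s : ASheet (ℕ × ℝ), s.psi = ψ ∧ s.lam = l ∧ s.e = e := by
  obtain ⟨β, al, m, hD⟩ := h
  have := hD.fin
  have hae : ∀ᵐ u ∂m, (0 : ℝ) ≤ u := by
    rw [ae_iff]
    have : {a : ℝ | ¬(0 : ℝ) ≤ a} = Iio 0 := by ext a; simp
    rw [this]
    exact hD.supp
  have hint : ∀ x : ℝ, 0 ≤ x → Integrable (fun u : ℝ => Real.exp (-(u * x))) m := by
    intro x hx
    refine Integrable.mono' (integrable_const (1 : ℝ)) (by fun_prop) ?_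
    filter_upwards [hae] with u hu
    rw [Real.norm_eq_abs, abs_of_pos (Real.exp_pos _)]
    exact Real.exp_le_one_iff.2 (by nlinarith)
  have hM0 : ∀ x : ℝ, 0 ≤ ∫ u, Real.exp (-(u * x)) ∂m := fun x =>
    integral_nonneg fun u => (Real.exp_pos _).le
  have hlap : ∀ x : ℝ, 0 ≤ x → ∫⁻ u, ENNReal.ofReal (Real.exp (-(|u| * x))) ∂m =
      ENNReal.ofReal (∫ u, Real.exp (-(u * x)) ∂m) := by
    intro x hx
    rw [ofReal_integral_eq_lintegral_ofReal (hint x hx)
      (Eventually.of_forall fun u => (Real.exp_pos _).le)]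
    refine lintegral_congr_ae ?_
    filter_upwards [hae] with u hu
    rw [abs_of_nonneg hu]
  refine ⟨{ mu := cpmu m
            sf := cpmu_sfinite m
            psi := ψ
            om := cpom β
            q := cpq al
            α₀ := al
            lam := l
            e := e
            c := ψ 0
            α₀_nonneg := hD.al0
            lam_nonneg := hl
            cone := by linarith [hD.adm]
            c_pos := hD.pos
            psi_ge := ?_
            q_ge := ?_
            meas_om := measurable_cpom β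
            meas_q := measurable_cpq al
            lap := ?_ }, rfl, rfl, rfl⟩
  · intro x hx
    rw [hD.eq x hx, hD.eq 0 le_rfl]
    have h1 : ∫ u, Real.exp (-(u * x)) ∂m ≤ ∫ u, Real.exp (-(u * 0)) ∂m := by
      refine integral_mono_ae (hint x hx) (hint 0 le_rfl) ?_
      filter_upwards [hae] with u hu
      exact Real.exp_le_exp.2 (by nlinarith)
    linarith
  · intro τ t _
    unfold cpq
    have := abs_nonneg t.2
    linarith
  · intro τ x hτ hx
    rw [cp_lap m hτ (hM0 x) (hlap x hx), hD.eq x hx]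

end Pool.Agent.Lib_helper59.RCT
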