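import Mathlib
import Pool.Agent.Lib_helper59.RCT.CP

/-!
# `sheet_exp` and the gluing lemma
-/

set_option autoImplicit false
set_option linter.unusedSectionVars false
set_option linter.unusedSimpArgs false

open scoped ENNReal ComplexOrder Kronecker

namespace Pool.Agent.Lib_helper59.RCT

open Matrix MeasureTheory Set Filter
open Pool.Agent.Lib_helper98.Renyi Pool.Agent.Lib_helper59.Lieb

section

variable {n : Type*} [Fintype n] [DecidableEq n]

/-- `- log det (ψ(B) + e N)` -/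
noncomputable def shF (ψ : ℝ → ℝ) (e : ℝ) (B N : Matrix n n ℂ) : ℝ := -Ld (cfc ψ B + e • N)

/-- `½ f(P + l K, K) + ½ f(K + l P, P) - f((1+l) A, A)`, `P = A - D`, `K = A + D` -/
noncomputable def cmb (l : ℝ) (ψ : ℝ → ℝ) (e : ℝ) (A D : Matrix n n ℂ) : ℝ :=
  (shF ψ e ((A - D) + l • (A + D)) (A + D) + shF ψ e ((A + D) + l • (A - D)) (A - D)) / 2 -
    shF ψ e (A + l • A) A

theorem ASheet.L_eq_cmb {T : Type} [MeasurableSpace T] (s : ASheet T) (A D : Matrix n n ℂ) :
    s.L A D / 2 = cmb s.lam s.psi s.e A D := by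
  unfold ASheet.L cmb shF ASheet.H
  ring

end

/-- **A sheet has a measure of directions.** -/
theorem sheet_exp {l : ℝ} (hl : 0 ≤ l) {ψ : ℝ → ℝ} {e : ℝ} (h : Pool.Agent.LDK.Sheet l ψ e) :
    ∃ μ : Measure (ℝ × ℝ), SFinite μ ∧ (∀ᵐ p ∂μ, |p.2| ≤ p.1) ∧
      (∀ (ι : Type) [Fintype ι] [DecidableEq ι] (A D : Matrix ι ι ℂ), PP A D → ∀ u : ℝ, 0 < u →
        0 ≤ cmb l ψ e (u • A) (u • D) ∧
        ∫⁻ p, ENNReal.ofReal (sd en ((u * p.1) • A) ((u * p.2) • D)) ∂μ ≤
          ENNReal.ofReal (cmb l ψ e (u • A) (u • D))) ∧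
      ∀ u : ℝ, 0 < u →
        ∫⁻ p, ENNReal.ofReal (sd en ((u * p.1) • (1 : Matrix (Fin 1) (Fin 1) ℂ))
          ((u * p.2) • (1 : Matrix (Fin 1) (Fin 1) ℂ))) ∂μ =
          ENNReal.ofReal (cmb l ψ e (u • (1 : Matrix (Fin 1) (Fin 1) ℂ))
            (u • (1 : Matrix (Fin 1) (Fin 1) ℂ))) := by
  obtain ⟨s, rfl, rfl, rfl⟩ := exists_asheet hl h
  refine ⟨s.dm, inferInstance, s.ae_dm, ?_, ?_⟩
  · intro ι _ _ A D hAD u hu
    have h1 : PP (u • A) (u • D) := hAD.smul hu.le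
    rw [← s.L_eq_cmb]
    refine ⟨div_nonneg (s.L_nonneg h1) two_pos.le, ?_⟩
    refine le_trans (le_of_eq (lintegral_congr fun p => ?_)) (s.dm_le h1)
    rw [smul_smul, smul_smul, mul_comm u, mul_comm u]
  · intro u hu
    have h1 := s.dm_eq (n := Fin 1) (a := fun _ => u) (d := fun _ => u)
      (fun _ => by rw [abs_of_pos hu])
    rw [dg_const] at h1
    rw [← s.L_eq_cmb]
    refine Eq.trans (lintegral_congr fun p => ?_) h1
    rw [smul_smul, smul_smul, mul_comm u, mul_comm u]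

section

variable {n : Type*} [Fintype n] [DecidableEq n] {m : Type*} [Fintype m] [DecidableEq m]

theorem dg_kron (a : n → ℝ) (b : m → ℝ) :
    (dg a : Matrix n n ℂ) ⊗ₖ (dg b : Matrix m m ℂ) = dg fun p : n × m => a p.1 * b p.2 := by
  rw [dg, dg, dg, diagonal_kronecker_diagonal]
  congr 1
  funext p
  push_cast
  rfl

/-- `log det (1 + A ⊗ M)` through the eigenvalues of `A` -/
theorem Ld_kron {U : Matrix n n ℂ} (hU : Uᴴ * U = 1) (hU' : U * Uᴴ = 1) (a : n → ℝ)
    {M : Matrix m m ℂ} (hM : M.IsHermitian) :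
    Ld (1 + (U * dg a * Uᴴ) ⊗ₖ M) = ∑ i, Ld (1 + a i • M) := by
  obtain ⟨V, b, hV, hV', rfl⟩ := exists_spectral hM
  change Ld (1 + (U * dg a * Uᴴ) ⊗ₖ (V * dg b * Vᴴ)) = ∑ i, Ld (1 + a i • (V * dg b * Vᴴ))
  have e1 : (U * dg a * Uᴴ) ⊗ₖ (V * dg b * Vᴴ) =
      (U ⊗ₖ V) * (dg fun p : n × m => a p.1 * b p.2) * (U ⊗ₖ V)ᴴ := by
    rw [mul_kronecker_mul, mul_kronecker_mul, dg_kron, conjTranspose_kronecker]
  have hW' : (U ⊗ₖ V) * (U ⊗ₖ V)ᴴ = 1 := by
    rw [conjTranspose_kronecker, ← mul_kronecker_mul, hU', hV', one_kronecker_one]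
  have hW : (U ⊗ₖ V)ᴴ * (U ⊗ₖ V) = 1 := by
    rw [conjTranspose_kronecker, ← mul_kronecker_mul, hU, hV, one_kronecker_one]
  rw [e1, one_add_conj_dg hW', Ld, rtr_cfc_dg hW, Fintype.sum_prod_type]
  refine Finset.sum_congr rfl fun i _ => ?_
  rw [smul_conj_dg, one_add_conj_dg hV', Ld, rtr_cfc_dg hV]

theorem Ld_comb {U : Matrix n n ℂ} (hU : Uᴴ * U = 1) (p k : n → ℝ) (ψ : ℝ → ℝ) (l e : ℝ) :
    Ld (cfc ψ (U * dg p * Uᴴ + l • (U * dg k * Uᴴ)) + e • (U * dg k * Uᴴ)) =
      ∑ i, Real.log (ψ (p i + l * k i) + e * k i) := by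
  have hadd : ∀ c d : n → ℝ, U * dg c * Uᴴ + U * dg d * Uᴴ = U * dg (fun i => c i + d i) * Uᴴ := by
    intro c d
    rw [← Matrix.add_mul, ← Matrix.mul_add, dg, dg, diagonal_add]
    congr 3
    funext i
    push_cast
    rfl
  rw [smul_conj_dg, smul_conj_dg, hadd]
  have e1 := cfc_conj_diagonal ψ U hU fun i => p i + l * k i
  change cfc ψ (U * dg (fun i => p i + l * k i) * Uᴴ) = U * dg (fun i => ψ (p i + l * k i)) * Uᴴ
    at e1
  rw [e1, hadd, Ld, rtr_cfc_dg hU]

end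

/-- **Gluing.** Finitely many sheets whose `log det`s dominate, with equality for scalars. -/
theorem ExpDom.of_logdet {m : Type} [Fintype m] [DecidableEq m] {R S : Matrix m m ℂ}
    (hR : R.PosSemidef) (hS : S.PosSemidef) {l : ℝ} (hl : 0 ≤ l) {k : ℕ}
    (ψ : Fin k → ℝ → ℝ) (e : Fin k → ℝ) (c : ℝ)
    (hsh : ∀ i, Pool.Agent.LDK.Sheet l (ψ i) (e i))
    (hle : ∀ (ι : Type) [Fintype ι] [DecidableEq ι] (P K : Matrix ι ι ℂ), P.PosSemidef →
      K.PosSemidef → Ld (1 + (P ⊗ₖ R + K ⊗ₖ S)) ≤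
        (∑ i, Ld (cfc (ψ i) (P + l • K) + e i • K)) + c * Fintype.card ι)
    (heq : ∀ p q : ℝ, 0 ≤ p → 0 ≤ q → Ld (1 + (p • R + q • S)) =
      (∑ i, Real.log (ψ i (p + l * q) + e i * q)) + c) : ExpDom (S + R) (S - R) := by
  choose s hpsi hlam he using fun i => exists_asheet hl (hsh i)
  have hH : ∀ {ι : Type} [Fintype ι] [DecidableEq ι] (P K : Matrix ι ι ℂ) (i : Fin k),
      (s i).H P K = cfc (ψ i) (P + l • K) + e i • K := by
    intro ι _ _ P K i
    rw [ASheet.H, hpsi, hlam, he]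
  have hp : ∀ {ι : Type} [Fintype ι] [DecidableEq ι] {P K : Matrix ι ι ℂ}, P.PosSemidef →
      K.PosSemidef → (P ⊗ₖ R + K ⊗ₖ S).PosSemidef := fun hP hK =>
    (hP.kronecker hR).add (hK.kronecker hS)
  -- the logarithmic side
  have main : ∀ {ι : Type} [Fintype ι] [DecidableEq ι] {A D : Matrix ι ι ℂ}, PP A D →
      ∑ i, (s i).L A D / 2 ≤ sd nl (A ⊗ₖ (S + R)) (D ⊗ₖ (S - R)) := by
    intro ι _ _ A D h
    have e1 : A ⊗ₖ (S + R) + D ⊗ₖ (S - R) = (A - D) ⊗ₖ R + (A + D) ⊗ₖ S := by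
      ext ⟨i, k⟩ ⟨j, l⟩
      simp only [Matrix.add_apply, Matrix.sub_apply, kroneckerMap_apply]
      ring
    have e2 : A ⊗ₖ (S + R) - D ⊗ₖ (S - R) = (A + D) ⊗ₖ R + (A - D) ⊗ₖ S := by
      ext ⟨i, k⟩ ⟨j, l⟩
      simp only [Matrix.add_apply, Matrix.sub_apply, kroneckerMap_apply]
      ring
    have hc : Ld (1 + A ⊗ₖ (S + R)) = (∑ i, Ld ((s i).H A A)) + c * Fintype.card ι := by
      obtain ⟨U, a, hU, hU', ha, rfl⟩ := exists_spectral_nonneg h.psd
      have h1 := Ld_kron hU hU' a (hS.add hR).1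
      rw [dg] at h1
      rw [h1]
      have h2 : ∀ j, Ld (1 + a j • (S + R)) =
          (∑ i, Real.log (ψ i (a j + l * a j) + e i * a j)) + c := by
        intro j
        rw [← heq _ _ (ha j) (ha j), smul_add, add_comm (a j • S)]
      have h3 : ∀ i, Ld ((s i).H (U * (diagonal fun i => (a i : ℂ)) * Uᴴ)
          (U * (diagonal fun i => (a i : ℂ)) * Uᴴ)) =
          ∑ j, Real.log (ψ i (a j + l * a j) + e i * a j) := by
        intro i
        rw [hH]
        exact Ld_comb hU a a (ψ i) l (e i)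
      rw [Finset.sum_congr rfl fun j _ => h2 j, Finset.sum_congr rfl fun i _ => h3 i,
        Finset.sum_add_distrib, Finset.sum_comm, Finset.sum_const, Finset.card_univ, nsmul_eq_mul,
        mul_comm c]
    have h1 := hle ι _ _ h.sub h.add
    have h2 := hle ι _ _ h.add h.sub
    have hA : (A ⊗ₖ (S + R)).PosSemidef := h.psd.kronecker (hS.add hR)
    unfold sd
    rw [e1, e2, trF_nl (hp h.sub h.add), trF_nl (hp h.add h.sub), trF_nl hA, hc]
    have e3 : ∑ i, (s i).L A D / 2 = (∑ i, Ld ((s i).H A A)) -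
        (∑ i, Ld ((s i).H (A - D) (A + D))) / 2 - (∑ i, Ld ((s i).H (A + D) (A - D))) / 2 := by
      rw [Finset.sum_div, Finset.sum_div, ← Finset.sum_sub_distrib, ← Finset.sum_sub_distrib]
      refine Finset.sum_congr rfl fun i _ => ?_
      unfold ASheet.L
      ring
    rw [e3]
    simp only [hH] at h1 h2 ⊢
    linarith
  have hL : ∀ {ι : Type} [Fintype ι] [DecidableEq ι] {A D : Matrix ι ι ℂ}, PP A D → ∀ i,
      0 ≤ (s i).L A D / 2 := fun h i => div_nonneg ((s i).L_nonneg h) two_pos.le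
  refine ⟨Measure.sum fun i => (s i).dm, inferInstance, ?_, ?_, ?_⟩
  · rw [Measure.ae_sum_iff]
    exact fun i => (s i).ae_dm
  · intro ι _ _ A D hAD u hu
    have h : PP (u • A) (u • D) := hAD.smul hu.le
    have h1 := main h
    rw [smul_kronecker, smul_kronecker] at h1
    refine le_trans ?_ (ENNReal.ofReal_le_ofReal h1)
    rw [lintegral_sum_measure, tsum_fintype, ENNReal.ofReal_sum_of_nonneg fun i _ => hL h i]
    refine Finset.sum_le_sum fun i _ => ?_
    refine le_trans (le_of_eq (lintegral_congr fun p => ?_)) ((s i).dm_le h)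
    rw [smul_smul, smul_smul, mul_comm u, mul_comm u]
  · intro u hu
    have had : ∀ _ : Fin 1, |u| ≤ u := fun _ => by rw [abs_of_pos hu]
    have h : PP (dg fun _ : Fin 1 => u) (dg fun _ : Fin 1 => u) := PP.dg had
    have hscal : sd nl (u • (S + R)) (u • (S - R)) =
        ∑ i, (s i).L (dg fun _ : Fin 1 => u) (dg fun _ : Fin 1 => u) / 2 := by
      have e1 : u • (S + R) + u • (S - R) = (0 : ℝ) • R + (2 * u) • S := by module
      have e2 : u • (S + R) - u • (S - R) = (2 * u) • R + (0 : ℝ) • S := by module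
      have e3 : u • (S + R) = u • R + u • S := by module
      have q1 : ((0 : ℝ) • R + (2 * u) • S).PosSemidef :=
        (hR.smul le_rfl).add (hS.smul (by positivity))
      have q2 : ((2 * u) • R + (0 : ℝ) • S).PosSemidef :=
        (hR.smul (by positivity)).add (hS.smul le_rfl)
      have q3 : (u • R + u • S).PosSemidef := (hR.smul hu.le).add (hS.smul hu.le)
      unfold sd
      rw [e1, e2, e3, trF_nl q1, trF_nl q2, trF_nl q3, heq 0 (2 * u) le_rfl (by positivity),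
        heq (2 * u) 0 (by positivity) le_rfl, heq u u hu.le hu.le]
      have hU : (1 : Matrix (Fin 1) (Fin 1) ℂ)ᴴ * 1 = 1 := by simp
      have hLd : ∀ (p q : ℝ) (i : Fin k),
          Ld ((s i).H (dg fun _ : Fin 1 => p) (dg fun _ : Fin 1 => q)) =
            Real.log (ψ i (p + l * q) + e i * q) := by
        intro p q i
        have := Ld_comb hU (fun _ => p) (fun _ => q) (ψ i) l (e i)
        simp only [conjTranspose_one, Matrix.one_mul, Matrix.mul_one, Finset.univ_unique,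
          Finset.sum_singleton] at this
        rw [hH]
        exact this
      have d1 : (dg fun _ : Fin 1 => u) - (dg fun _ : Fin 1 => u) = dg fun _ : Fin 1 => (0 : ℝ) := by
        rw [sub_self, dg_const, zero_smul]
      have d2 : (dg fun _ : Fin 1 => u) + (dg fun _ : Fin 1 => u) = dg fun _ : Fin 1 => 2 * u := by
        rw [dg_const, dg_const, ← add_smul, two_mul]
      have e4 : ∑ i, (s i).L (dg fun _ : Fin 1 => u) (dg fun _ : Fin 1 => u) / 2 =
          (∑ i, Real.log (ψ i (u + l * u) + e i * u)) -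
          (∑ i, Real.log (ψ i (0 + l * (2 * u)) + e i * (2 * u))) / 2 -
          (∑ i, Real.log (ψ i (2 * u + l * 0) + e i * 0)) / 2 := by
        rw [Finset.sum_div, Finset.sum_div, ← Finset.sum_sub_distrib, ← Finset.sum_sub_distrib]
        refine Finset.sum_congr rfl fun i _ => ?_
        unfold ASheet.L
        rw [d1, d2, hLd, hLd, hLd]
        ring
      rw [e4]
      ring
    rw [hscal, lintegral_sum_measure, tsum_fintype,
      ENNReal.ofReal_sum_of_nonneg fun i _ => hL h i]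
    refine Finset.sum_congr rfl fun i _ => ?_
    have h1 := (s i).dm_eq (n := Fin 1) had
    refine Eq.trans (lintegral_congr fun p => ?_) h1
    rw [dg_const, smul_smul, smul_smul, mul_comm u, mul_comm u]

end Pool.Agent.Lib_helper59.RCT
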