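import Mathlib
import Pool.Agent.Lib_helper59.RCT.Glue
import Pool.Agent.Lib_helper92.RC.Bridge

/-!
# From `HasSheets` to `ExpDom`
-/

set_option autoImplicit false
set_option linter.unusedSectionVars false
set_option linter.unusedSimpArgs false

open scoped ENNReal ComplexOrder Kronecker

namespace Pool.Agent.LDK

open Matrix MeasureTheory Set Filter
open Pool.Agent.Lib_helper59.RCT

section

variable {ι : Type} [Fintype ι] [DecidableEq ι]

/-- `ld = Ld` -/
theorem ld_eq_Ld {M : Matrix ι ι ℂ} (h : M.IsHermitian) : ld M = Ld M := by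
  rw [ld, RC.trF_eq_cfc _ h]
  rfl

theorem ofReal_smul (l : ℝ) (M : Matrix ι ι ℂ) : (l : ℂ) • M = l • M := by
  ext i j
  simp

theorem hm_one (ψ : ℝ → ℝ) (B : Matrix ι ι ℂ) : hm ψ 1 B = cfc ψ B := by
  unfold hm
  simp only [one_mul, div_one]

end

/-- the two notions of a pair agree -/
theorem isPsdPair_iff {ι : Type} [Fintype ι] [DecidableEq ι] {A D : Matrix ι ι ℂ} :
    RC.IsPsdPair A D ↔ PP A D :=
  ⟨fun h => ⟨h.add, h.sub⟩, fun h => ⟨h.psd, h.sub, h.add⟩⟩

/-- **The class side has exponential domination.** -/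
theorem HasSheets.expDom {κ : Type} [Fintype κ] [DecidableEq κ] {R E : Matrix κ κ ℂ}
    (hR : R.PosSemidef) {l : ℝ} (hl : 0 ≤ l) (hS : ((l : ℂ) • R + E).PosSemidef)
    (h : HasSheets R E l) : ExpDom (((l : ℂ) • R + E) + R) (((l : ℂ) • R + E) - R) := by
  obtain ⟨k, ψ, e, c, hsh, hle, heq⟩ := h
  have hMr : ∀ {ι : Type} [Fintype ι] [DecidableEq ι] (P K : Matrix ι ι ℂ),
      Mr R E 1 (P + (l : ℂ) • K) K = 1 + (P ⊗ₖ R + K ⊗ₖ ((l : ℂ) • R + E)) := by
    intro ι _ _ P K
    unfold Mr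
    ext ⟨i, k⟩ ⟨j, l'⟩
    simp only [Matrix.add_apply, Matrix.smul_apply, kroneckerMap_apply, smul_eq_mul,
      Complex.ofReal_one, one_mul]
    ring
  refine ExpDom.of_logdet hR hS hl ψ e (c 1) hsh ?_ ?_
  · intro ι _ _ P K hP hK
    have h1 := hle ι P K hP hK 1 one_pos
    have hB : (P + l • K).PosSemidef := hP.add (hK.smul hl)
    have hH : ∀ i, (cfc (ψ i) (P + l • K) + e i • K).IsHermitian := fun i => by
      refine IsHermitian.add ?_ (herm_smul hK.1 _)
      exact IsSelfAdjoint.cfc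
    have hp : (1 + (P ⊗ₖ R + K ⊗ₖ ((l : ℂ) • R + E))).IsHermitian :=
      isHermitian_one.add ((hP.kronecker hR).add (hK.kronecker hS)).1
    rw [hMr, ld_eq_Ld hp] at h1
    refine h1.trans (le_of_eq ?_)
    congr 1
    refine Finset.sum_congr rfl fun i _ => ?_
    rw [hm_one, ofReal_smul, ofReal_smul, ld_eq_Ld (hH i)]
  · intro p q hp hq
    have h1 := heq p q 1 hp hq one_pos
    have e1 : (1 : Matrix κ κ ℂ) + (p • R + q • ((l : ℂ) • R + E)) =
        ((1 : ℝ) : ℂ) • (1 : Matrix κ κ ℂ) + ((p + l * q : ℝ) : ℂ) • R + (q : ℂ) • E := by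
      ext i j
      simp only [Matrix.add_apply, Matrix.smul_apply, smul_eq_mul, Complex.ofReal_one, one_mul,
        Complex.real_smul]
      push_cast
      ring
    have hh : ((1 : Matrix κ κ ℂ) + (p • R + q • ((l : ℂ) • R + E))).IsHermitian :=
      isHermitian_one.add ((hR.smul hp).add (hS.smul hq)).1
    rw [← e1, ld_eq_Ld hh] at h1
    rw [h1]
    congr 1
    refine Finset.sum_congr rfl fun i _ => ?_
    rw [one_mul, div_one]

end Pool.Agent.LDK
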