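import Mathlib
import Pool.Agent.Lib_helper59.RCT.CP
import Pool.Agent.Lib_helper4.LDK.Glue

/-!
# `sheet_meas`: the measure of directions of a sheet
-/

set_option autoImplicit false
set_option linter.unusedSectionVars false
set_option linter.unusedSimpArgs false

open scoped ENNReal ComplexOrder Kronecker

namespace Pool.Agent.LDK

open Matrix MeasureTheory Set Filter
open Pool.Agent.Lib_helper59.RCT (PP sd nl en ExpDom ExpMeas ASheet exists_asheet)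

theorem cH_eq {T : Type} [MeasurableSpace T] (s : ASheet T) {ι : Type} [Fintype ι]
    [DecidableEq ι] {A D : Matrix ι ι ℂ} (h : PP A D) :
    cH s.lam s.e s.psi A D = s.L A D / 2 := by
  have h1 := Ld_eq_ld (s.H_posDef h.psd h.psd)
  have h2 := Ld_eq_ld (s.H_posDef h.sub h.add)
  have h3 := Ld_eq_ld (s.H_posDef h.add h.sub)
  unfold cH ASheet.L
  rw [h1, h2, h3]
  unfold ASheet.H
  ring

/-- **The measure of directions of a sheet.** -/
theorem sheet_meas {l : ℝ} (hl : 0 ≤ l) {ψ : ℝ → ℝ} {e : ℝ} (h : Sheet l ψ e) :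
    ∃ μ : Measure (ℝ × ℝ), SFinite μ ∧ (∀ᵐ p ∂μ, |p.2| ≤ p.1) ∧
      (∀ (ι : Type) [Fintype ι] [DecidableEq ι] (A D : Matrix ι ι ℂ), PP A D →
        0 ≤ cH l e ψ A D ∧
        ∫⁻ p, ENNReal.ofReal (sd en (p.1 • A) (p.2 • D)) ∂μ ≤ ENNReal.ofReal (cH l e ψ A D)) ∧
      (∀ a : ℝ, 0 ≤ a →
        ∫⁻ p, ENNReal.ofReal (sd en (p.1 • (a • (1 : Matrix (Fin 1) (Fin 1) ℂ)))
          (p.2 • (a • (1 : Matrix (Fin 1) (Fin 1) ℂ)))) ∂μ =
          ENNReal.ofReal (cH l e ψ (a • (1 : Matrix (Fin 1) (Fin 1) ℂ))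
            (a • (1 : Matrix (Fin 1) (Fin 1) ℂ)))) := by
  obtain ⟨s, rfl, rfl, rfl⟩ := exists_asheet hl h
  refine ⟨s.dm, inferInstance, s.ae_dm, ?_, ?_⟩
  · intro ι _ _ A D hAD
    rw [cH_eq s hAD]
    exact ⟨div_nonneg (s.L_nonneg hAD) two_pos.le, s.dm_le hAD⟩
  · intro a ha
    have had : ∀ _ : Fin 1, |a| ≤ a := fun _ => by rw [abs_of_nonneg ha]
    have h1 := s.dm_eq (n := Fin 1) had
    have h2 : PP (Pool.Agent.Lib_helper59.Lieb.dg fun _ : Fin 1 => a)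
      (Pool.Agent.Lib_helper59.Lieb.dg fun _ : Fin 1 => a) :=
      Pool.Agent.Lib_helper59.RCT.PP.dg had
    rw [Pool.Agent.Lib_helper59.Lieb.dg_const] at h1 h2
    rw [cH_eq s h2]
    exact h1

end Pool.Agent.LDK
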