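import Mathlib
import Pool.Agent.Lib_helper59.RCT.Sheet

/-!
# Mellin transforms of second differences
-/

set_option autoImplicit false
set_option linter.unusedSectionVars false
set_option linter.unusedSimpArgs false

open scoped ENNReal ComplexOrder

namespace Pool.Agent.Lib_helper59.RCT

open Matrix MeasureTheory Set Filter
open Pool.Agent.Lib_helper98.Renyi Pool.Agent.Lib_helper59.Lieb

/-- `∫ r^(α-1) f(x/r) dr = c x^α` for all `x ≥ 0` -/
structure MF (f : ℝ → ℝ) (α c : ℝ) : Prop where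
  int : ∀ x : ℝ, 0 ≤ x → IntegrableOn (fun r : ℝ => r ^ (α - 1) * f (x / r)) (Ioi 0)
  eq : ∀ x : ℝ, 0 ≤ x → ∫ r in Ioi (0 : ℝ), r ^ (α - 1) * f (x / r) = c * x ^ α

theorem mf_of_bounds {f : ℝ → ℝ} {α p q C₁ C₂ : ℝ} (hα : 0 < α) (hp : p < α) (hq : α < q)
    (hf0 : f 0 = 0) (hc : ContinuousOn f (Ici 0)) (h1 : ∀ u, 1 ≤ u → |f u| ≤ C₁ * u ^ p)
    (h2 : ∀ u, 0 < u → u ≤ 1 → |f u| ≤ C₂ * u ^ q) :
    MF f α (∫ r in Ioi (0 : ℝ), r ^ (α - 1) * f (1 / r)) := by
  have hcont : ContinuousOn (fun r : ℝ => r ^ (α - 1) * f (1 / r)) (Ioi 0) := by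
    refine ContinuousOn.mul ?_ ?_
    · intro r hr
      exact (Real.continuousAt_rpow_const _ _ (Or.inl (ne_of_gt hr))).continuousWithinAt
    · refine hc.comp ?_ ?_
      · intro r hr
        exact (continuousAt_const.div continuousAt_id (ne_of_gt hr)).continuousWithinAt
      · intro r hr
        have : (0 : ℝ) < r := hr
        simp only [mem_Ici]
        positivity
  have hI : IntegrableOn (fun r : ℝ => r ^ (α - 1) * f (1 / r)) (Ioi 0) := by
    rw [show Ioi (0 : ℝ) = Ioc 0 1 ∪ Ioi 1 from (Ioc_union_Ioi_eq_Ioi zero_le_one).symm]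
    refine IntegrableOn.union ?_ ?_
    · have hi : IntegrableOn (fun r : ℝ => C₁ * r ^ (α - 1 - p)) (Ioc 0 1) := by
        refine Integrable.const_mul ?_ C₁
        have := intervalIntegral.intervalIntegrable_rpow' (a := 0) (b := 1)
          (r := α - 1 - p) (by linarith)
        rwa [intervalIntegrable_iff_integrableOn_Ioc_of_le zero_le_one] at this
      refine Integrable.mono' hi ((hcont.mono fun r hr => hr.1).aestronglyMeasurable
        measurableSet_Ioc) ?_
      rw [ae_restrict_iff' measurableSet_Ioc]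
      refine Eventually.of_forall fun r hr => ?_
      have hr0 : 0 < r := hr.1
      rw [norm_mul, Real.norm_eq_abs, Real.norm_eq_abs, abs_of_nonneg (by positivity)]
      have h3 := h1 (1 / r) ((one_le_div hr0).2 hr.2)
      have e : (1 / r) ^ p = r ^ (-p) := by
        rw [one_div, Real.inv_rpow hr0.le, Real.rpow_neg hr0.le]
      rw [e] at h3
      calc r ^ (α - 1) * |f (1 / r)| ≤ r ^ (α - 1) * (C₁ * r ^ (-p)) :=
            mul_le_mul_of_nonneg_left h3 (by positivity)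
        _ = C₁ * (r ^ (α - 1) * r ^ (-p)) := by ring
        _ = C₁ * r ^ (α - 1 - p) := by
            rw [← Real.rpow_add hr0]
            congr 2
    · have hi : IntegrableOn (fun r : ℝ => C₂ * r ^ (α - 1 - q)) (Ioi 1) :=
        (integrableOn_Ioi_rpow_of_lt (by linarith) one_pos).const_mul C₂
      refine Integrable.mono' hi ((hcont.mono (Ioi_subset_Ioi zero_le_one)).aestronglyMeasurable
        measurableSet_Ioi) ?_
      rw [ae_restrict_iff' measurableSet_Ioi]
      refine Eventually.of_forall fun r hr => ?_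
      have hr1 : (1 : ℝ) < r := hr
      have hr0 : 0 < r := by linarith
      rw [norm_mul, Real.norm_eq_abs, Real.norm_eq_abs, abs_of_nonneg (by positivity)]
      have h3 := h2 (1 / r) (by positivity) ((div_le_one hr0).2 hr1.le)
      have e : (1 / r) ^ q = r ^ (-q) := by
        rw [one_div, Real.inv_rpow hr0.le, Real.rpow_neg hr0.le]
      rw [e] at h3
      calc r ^ (α - 1) * |f (1 / r)| ≤ r ^ (α - 1) * (C₂ * r ^ (-q)) :=
            mul_le_mul_of_nonneg_left h3 (by positivity)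
        _ = C₂ * (r ^ (α - 1) * r ^ (-q)) := by ring
        _ = C₂ * r ^ (α - 1 - q) := by
            rw [← Real.rpow_add hr0]
            congr 2
  have key : ∀ x : ℝ, 0 ≤ x → IntegrableOn (fun r : ℝ => r ^ (α - 1) * f (x / r)) (Ioi 0) ∧
      ∫ r in Ioi (0 : ℝ), r ^ (α - 1) * f (x / r) =
        (∫ r in Ioi (0 : ℝ), r ^ (α - 1) * f (1 / r)) * x ^ α := by
    intro x hx
    rcases hx.eq_or_lt with rfl | hx
    · have : (fun r : ℝ => r ^ (α - 1) * f (0 / r)) = fun _ => 0 := by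
        funext r; simp [hf0]
      rw [this]
      simp [Real.zero_rpow hα.ne']
    · have key : ∀ u ∈ Ioi (0 : ℝ), (x * u) ^ (α - 1) * f (x / (x * u)) =
          x ^ (α - 1) * (u ^ (α - 1) * f (1 / u)) := by
        intro u hu
        have hu0 : 0 < u := hu
        rw [Real.mul_rpow hx.le hu0.le, mul_assoc]
        congr 3
        field_simp
      have hint2 : IntegrableOn (fun u : ℝ => (x * u) ^ (α - 1) * f (x / (x * u))) (Ioi 0) := by
        apply IntegrableOn.congr_fun (hI.const_mul (x ^ (α - 1))) _ measurableSet_Ioi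
        intro u hu
        exact (key u hu).symm
      constructor
      · have := (integrableOn_Ioi_comp_mul_left_iff (fun r : ℝ => r ^ (α - 1) * f (x / r)) 0 hx).1
          hint2
        simpa using this
      · have h1 := integral_comp_mul_left_Ioi (fun r : ℝ => r ^ (α - 1) * f (x / r)) 0 hx
        rw [mul_zero] at h1
        rw [setIntegral_congr_fun measurableSet_Ioi key, integral_const_mul, smul_eq_mul] at h1
        have h3 : x ^ α = x * x ^ (α - 1) := by
          rw [mul_comm, ← Real.rpow_add_one hx.ne']; congr 1; ring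
        have h5 : ∀ I1 I2 y : ℝ, y * I1 = x⁻¹ * I2 → I2 = I1 * (x * y) := by
          intro I1 I2 y h
          have h6 : I2 = x * (x⁻¹ * I2) := by
            rw [← mul_assoc, mul_inv_cancel₀ hx.ne', one_mul]
          rw [h6, ← h]
          ring
        rw [h3]
        exact h5 _ _ _ h1
  exact ⟨fun x hx => (key x hx).1, fun x hx => (key x hx).2⟩

section

variable {n : Type*} [Fintype n] [DecidableEq n]

theorem exists_eigs {M : Matrix n n ℂ} (hM : M.PosSemidef) :
    ∃ c : n → ℝ, (∀ i, 0 ≤ c i) ∧ (∀ f : ℝ → ℝ, trF f M = ∑ i, f (c i)) ∧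
      ∀ (f : ℝ → ℝ) (r : ℝ), trF f (r • M) = ∑ i, f (r * c i) := by
  obtain ⟨U, c, hU, hU', hc, rfl⟩ := exists_spectral_nonneg hM
  refine ⟨c, hc, fun f => trF_conj_diagonal f U hU c, fun f r => ?_⟩
  have := smul_conj_dg U r c
  rw [dg] at this
  rw [this]
  exact trF_conj_diagonal f U hU _

theorem MF.trF_int {f : ℝ → ℝ} {α c : ℝ} (h : MF f α c) {M : Matrix n n ℂ}
    (hM : M.PosSemidef) :
    IntegrableOn (fun r : ℝ => r ^ (α - 1) * trF f (r⁻¹ • M)) (Ioi 0) ∧
    ∫ r in Ioi (0 : ℝ), r ^ (α - 1) * trF f (r⁻¹ • M) = c * trF (fun x => x ^ α) M := by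
  obtain ⟨m, hm, h1, h2⟩ := exists_eigs hM
  have e : (fun r : ℝ => r ^ (α - 1) * trF f (r⁻¹ • M)) =
      fun r : ℝ => ∑ i, r ^ (α - 1) * f (m i / r) := by
    funext r
    rw [h2, Finset.mul_sum]
    refine Finset.sum_congr rfl fun i _ => ?_
    rw [div_eq_inv_mul]
  rw [e]
  refine ⟨integrable_finsetSum _ fun i _ => h.int _ (hm i), ?_⟩
  rw [integral_finsetSum _ fun i _ => h.int _ (hm i), h1, Finset.mul_sum]
  exact Finset.sum_congr rfl fun i _ => h.eq _ (hm i)

theorem MF.sd_int {f : ℝ → ℝ} {α c : ℝ} (h : MF f α c) {A D : Matrix n n ℂ} (hAD : PP A D) :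
    IntegrableOn (fun r : ℝ => r ^ (α - 1) * sd f (r⁻¹ • A) (r⁻¹ • D)) (Ioi 0) ∧
    ∫ r in Ioi (0 : ℝ), r ^ (α - 1) * sd f (r⁻¹ • A) (r⁻¹ • D) =
      c * sd (fun x => x ^ α) A D := by
  obtain ⟨i1, e1⟩ := h.trF_int hAD.add
  obtain ⟨i2, e2⟩ := h.trF_int hAD.sub
  obtain ⟨i0, e0⟩ := h.trF_int hAD.psd
  have e : (fun r : ℝ => r ^ (α - 1) * sd f (r⁻¹ • A) (r⁻¹ • D)) = fun r : ℝ =>
      ((r ^ (α - 1) * trF f (r⁻¹ • (A + D))) / 2 + (r ^ (α - 1) * trF f (r⁻¹ • (A - D))) / 2) -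
        r ^ (α - 1) * trF f (r⁻¹ • A) := by
    funext r
    unfold sd
    rw [smul_add, smul_sub]
    ring
  have hA : IntegrableOn (fun r : ℝ => (r ^ (α - 1) * trF f (r⁻¹ • (A + D))) / 2 +
      (r ^ (α - 1) * trF f (r⁻¹ • (A - D))) / 2) (Ioi 0) :=
    (i1.div_const 2).add (i2.div_const 2)
  rw [e]
  refine ⟨hA.sub i0, ?_⟩
  rw [integral_sub hA i0, integral_add (i1.div_const 2) (i2.div_const 2), integral_div,
    integral_div, e1, e2, e0]
  unfold sd
  ring

theorem MF.sd_lint {f : ℝ → ℝ} {α c : ℝ} (h : MF f α c) (hf : ConvexOn ℝ (Set.Ici 0) f)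
    {A D : Matrix n n ℂ} (hAD : PP A D) :
    ∫⁻ r in Ioi (0 : ℝ), ENNReal.ofReal (r ^ (α - 1)) *
      ENNReal.ofReal (sd f (r⁻¹ • A) (r⁻¹ • D)) =
      ENNReal.ofReal (c * sd (fun x => x ^ α) A D) := by
  obtain ⟨i, e⟩ := h.sd_int hAD
  rw [← e, ofReal_integral_eq_lintegral_ofReal i]
  · refine setLIntegral_congr_fun measurableSet_Ioi fun r hr => ?_
    have hr0 : (0 : ℝ) < r := hr
    rw [ENNReal.ofReal_mul (by positivity)]
  · rw [EventuallyLE, ae_restrict_iff' measurableSet_Ioi]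
    refine Eventually.of_forall fun r hr => ?_
    have hr0 : (0 : ℝ) < r := hr
    refine mul_nonneg (by positivity) (sd_nonneg hf ⟨?_, ?_⟩)
    · rw [← smul_add]; exact hAD.add.smul (by positivity)
    · rw [← smul_sub]; exact hAD.sub.smul (by positivity)

/-! ### linearity of `sd` -/

theorem sd_add {f g : ℝ → ℝ} {A D : Matrix n n ℂ} (h : PP A D) :
    sd (fun x => f x + g x) A D = sd f A D + sd g A D := by
  obtain ⟨a, -, ha, -⟩ := exists_eigs h.add
  obtain ⟨b, -, hb, -⟩ := exists_eigs h.sub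
  obtain ⟨c, -, hc, -⟩ := exists_eigs h.psd
  unfold sd
  rw [ha, hb, hc, ha, hb, hc, ha, hb, hc, Finset.sum_add_distrib, Finset.sum_add_distrib,
    Finset.sum_add_distrib]
  ring

theorem sd_mul {f : ℝ → ℝ} {A D : Matrix n n ℂ} (h : PP A D) (k : ℝ) :
    sd (fun x => k * f x) A D = k * sd f A D := by
  obtain ⟨a, -, ha, -⟩ := exists_eigs h.add
  obtain ⟨b, -, hb, -⟩ := exists_eigs h.sub
  obtain ⟨c, -, hc, -⟩ := exists_eigs h.psd
  unfold sd
  rw [ha, hb, hc, ha, hb, hc, ← Finset.mul_sum, ← Finset.mul_sum, ← Finset.mul_sum]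
  ring

theorem trF_id {M : Matrix n n ℂ} (hM : M.PosSemidef) : trF (fun x => x) M = rtr M := by
  obtain ⟨U, c, hU, hU', hc, rfl⟩ := exists_spectral_nonneg hM
  rw [trF_conj_diagonal _ U hU]
  exact (rtr_conj_dg hU c).symm

theorem sd_id {A D : Matrix n n ℂ} (h : PP A D) : sd (fun x => x) A D = 0 := by
  unfold sd
  rw [trF_id h.add, trF_id h.sub, trF_id h.psd, rtr_add, rtr_sub]
  ring

theorem sd_const {A D : Matrix n n ℂ} (h : PP A D) (k : ℝ) : sd (fun _ => k) A D = 0 := by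
  obtain ⟨a, -, ha, -⟩ := exists_eigs h.add
  obtain ⟨b, -, hb, -⟩ := exists_eigs h.sub
  obtain ⟨c, -, hc, -⟩ := exists_eigs h.psd
  unfold sd
  rw [ha, hb, hc]
  simp

end

end Pool.Agent.Lib_helper59.RCT
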